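import Pool.Agent.LibTP76.C1

/-!
ROW P1: removing a redundant generator removes a relation.

Let `g = M.sum` with `M` over `G.erase g`. Then `Conn R {g} M`, `{g} ≠ M` (as `g ∉ M`; all elements
are positive). Claim: there is a relation `({g}, V) ∈ R` or `(V, {g}) ∈ R` with `V` over
`G.erase g`. Indeed by induction along the chain (`Relation.ReflTransGen.head_induction_on`,
statement: if `Conn R A M`, `A = {g}`, then such a relation exists): a first step `{g} → B`,
`{g} = U + C` has `U = {g}, C = 0` or `U = 0, C = {g}`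
(`Multiset.add_eq_singleton` or by cardinality). If `U = 0` then `V.sum = 0`, `V` over `G`,
positive elements, so `V = 0` and `B = {g}`: go on. If `U = {g}`, then `V.sum = g`; if `g ∈ V` then
`V = {g}` (the other elements are positive), `B = {g}`: go on; otherwise `V` is over `G.erase g`.
Let `ρ ∈ R` be this relation, `π M := M.filter (· ≠ g) + (M.count g) • V`, which is additive, and
`R' := (R.erase ρ).image (fun r => (π r.1, π r.2))`. `conn_map` with `f = π`: the relation `ρ` goes to
a trivial pair, the others to relations of `R'`. `π A = A` for `A` over `G.erase g`.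
-/

set_option autoImplicit false

namespace Pool.Agent.LibTP76

lemma P1_zero (G : Finset ℕ) (hpos : ∀ a ∈ G, 0 < a) (M : Multiset ℕ) (hM : Over G M)
    (hs : M.sum = 0) : M = 0 := by
  refine Multiset.eq_zero_of_forall_notMem fun a ha => ?_
  have h1 := hpos a (hM a ha)
  have h2 := Multiset.single_le_sum (fun x _ => Nat.zero_le x) a ha
  omega

lemma P1_rel (G : Finset ℕ) (R : Finset (Multiset ℕ × Multiset ℕ))
    (hpos : ∀ a ∈ G, 0 < a) (hP : Pres G R) (g : ℕ) (M : Multiset ℕ)
    (hM : Over (G.erase g) M) (A : Multiset ℕ) (h : Conn R A M) :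
    A = {g} → ∃ V : Multiset ℕ, Over (G.erase g) V ∧ V.sum = g ∧
      (({g}, V) ∈ R ∨ (V, {g}) ∈ R) := by
  induction h using Relation.ReflTransGen.head_induction_on with
  | refl =>
    rintro rfl
    exact absurd rfl (Finset.mem_erase.1 (hM g (Multiset.mem_singleton_self g))).1
  | head hs _ ih =>
    intro hA
    obtain ⟨U, V, C, hUV, rfl, rfl⟩ := hs
    have hV : Over G V := by
      rcases hUV with h1 | h1
      · exact (hP.ov _ h1).2
      · exact (hP.ov _ h1).1
    have hsum : V.sum = U.sum := by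
      rcases hUV with h1 | h1
      · exact (hP.bal _ h1).symm
      · exact hP.bal _ h1
    have hcard : Multiset.card U + Multiset.card C = 1 := by
      rw [← Multiset.card_add, hA, Multiset.card_singleton]
    rcases Nat.eq_zero_or_pos (Multiset.card U) with h1 | h1
    · have hU : U = 0 := Multiset.card_eq_zero.1 h1
      subst hU
      have hV0 : V = 0 := P1_zero G hpos V hV (by rw [hsum, Multiset.sum_zero])
      subst hV0
      exact ih hA
    · have hC : C = 0 := Multiset.card_eq_zero.1 (by omega)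
      subst hC
      rw [add_zero] at hA ih
      subst hA
      rw [Multiset.sum_singleton] at hsum
      by_cases hg : g ∈ V
      · obtain ⟨W, rfl⟩ := Multiset.exists_cons_of_mem hg
        rw [Multiset.sum_cons] at hsum
        have hW : W = 0 := P1_zero G hpos W
          (fun a ha => hV a (Multiset.mem_cons_of_mem ha)) (by omega)
        subst hW
        exact ih rfl
      · exact ⟨V, fun a ha => Finset.mem_erase.2 ⟨fun h => hg (h ▸ ha), hV a ha⟩, hsum, hUV⟩

/-- replace every `g` by `V` -/
def P1_pi (g : ℕ) (V M : Multiset ℕ) : Multiset ℕ :=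
  M.filter (fun a => a ≠ g) + (M.count g) • V

lemma P1_pi_add (g : ℕ) (V A B : Multiset ℕ) :
    P1_pi g V (A + B) = P1_pi g V A + P1_pi g V B := by
  rw [P1_pi, P1_pi, P1_pi, Multiset.filter_add, Multiset.count_add, add_nsmul]
  exact add_add_add_comm _ _ _ _

lemma P1_pi_of_notMem (g : ℕ) (V A : Multiset ℕ) (h : g ∉ A) : P1_pi g V A = A := by
  rw [P1_pi, Multiset.count_eq_zero_of_notMem h, zero_nsmul, add_zero,
    Multiset.filter_eq_self]
  rintro a ha rfl
  exact h ha

lemma P1_pi_single (g : ℕ) (V : Multiset ℕ) : P1_pi g V {g} = V := by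
  rw [P1_pi, Multiset.count_singleton_self, one_nsmul]
  simp

lemma P1_pi_sum (g : ℕ) (V A : Multiset ℕ) (hV : V.sum = g) : (P1_pi g V A).sum = A.sum := by
  induction A using Multiset.induction_on with
  | empty => rw [P1_pi_of_notMem g V 0 (Multiset.notMem_zero g)]
  | cons a A ih =>
    rw [← Multiset.singleton_add, P1_pi_add, Multiset.sum_add, Multiset.sum_add, ih]
    congr 1
    by_cases h : a = g
    · subst h
      rw [P1_pi_single, Multiset.sum_singleton, hV]
    · rw [P1_pi_of_notMem g V {a} (by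
        rw [Multiset.mem_singleton]
        exact fun h' => h h'.symm)]

lemma P1_pi_over (G : Finset ℕ) (g : ℕ) (V A : Multiset ℕ) (hV : Over (G.erase g) V)
    (hA : Over G A) : Over (G.erase g) (P1_pi g V A) := by
  intro a ha
  rw [P1_pi, Multiset.mem_add] at ha
  rcases ha with ha | ha
  · rw [Multiset.mem_filter] at ha
    exact Finset.mem_erase.2 ⟨ha.2, hA a ha.1⟩
  · exact hV a (Multiset.mem_of_mem_nsmul ha)

theorem remove_redundant (G : Finset ℕ) (R : Finset (Multiset ℕ × Multiset ℕ))
    (hpos : ∀ a ∈ G, 0 < a) (hP : Pres G R) (hc : R.card + 1 ≤ G.card)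
    (g : ℕ) (hg : g ∈ G) (M : Multiset ℕ) (hM : Over (G.erase g) M) (hs : M.sum = g) :
    ∃ R' : Finset (Multiset ℕ × Multiset ℕ), Pres (G.erase g) R' ∧
      R'.card + 1 ≤ (G.erase g).card := by
  classical
  have hMG : Over G M := fun a ha => Finset.mem_of_mem_erase (hM a ha)
  have hgG : Over G {g} := by
    intro a ha
    rw [Multiset.mem_singleton.1 ha]
    exact hg
  have hconn : Conn R {g} M := hP.gen _ _ hgG hMG (by rw [Multiset.sum_singleton, hs])
  obtain ⟨V, hV, hVs, hVR⟩ := P1_rel G R hpos hP g M hM {g} hconn rfl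
  have hgV : g ∉ V := fun h => (Finset.mem_erase.1 (hV g h)).1 rfl
  obtain ⟨ρ, hρ, hρV⟩ : ∃ ρ ∈ R, P1_pi g V ρ.1 = P1_pi g V ρ.2 := by
    rcases hVR with h | h
    · exact ⟨_, h, by rw [P1_pi_single, P1_pi_of_notMem g V V hgV]⟩
    · exact ⟨_, h, by rw [P1_pi_single, P1_pi_of_notMem g V V hgV]⟩
  refine ⟨(R.erase ρ).image (fun r => (P1_pi g V r.1, P1_pi g V r.2)), ⟨?_, ?_, ?_⟩, ?_⟩
  · intro r hr
    obtain ⟨r', hr', rfl⟩ := Finset.mem_image.1 hr
    have h1 := hP.ov r' (Finset.mem_of_mem_erase hr')
    exact ⟨P1_pi_over G g V _ hV h1.1, P1_pi_over G g V _ hV h1.2⟩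
  · intro r hr
    obtain ⟨r', hr', rfl⟩ := Finset.mem_image.1 hr
    have h1 := hP.bal r' (Finset.mem_of_mem_erase hr')
    show (P1_pi g V r'.1).sum = (P1_pi g V r'.2).sum
    rw [P1_pi_sum g V _ hVs, P1_pi_sum g V _ hVs, h1]
  · intro A B hA hB hAB
    have h1 : Conn R A B := hP.gen A B (fun a ha => Finset.mem_of_mem_erase (hA a ha))
      (fun a ha => Finset.mem_of_mem_erase (hB a ha)) hAB
    have h2 := conn_map (R' := (R.erase ρ).image (fun r => (P1_pi g V r.1, P1_pi g V r.2)))
      (P1_pi g V) (P1_pi_add g V) (fun r hr => by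
        by_cases h : r = ρ
        · rw [h, hρV]
          exact Conn.refl _ _
        · exact Conn.of_mem (Finset.mem_image_of_mem _ (Finset.mem_erase.2 ⟨h, hr⟩))) h1
    rwa [P1_pi_of_notMem g V A fun h => (Finset.mem_erase.1 (hA g h)).1 rfl,
      P1_pi_of_notMem g V B fun h => (Finset.mem_erase.1 (hB g h)).1 rfl] at h2
  · have h1 : ((R.erase ρ).image (fun r => (P1_pi g V r.1, P1_pi g V r.2))).card ≤ R.card - 1 := by
      rw [← Finset.card_erase_of_mem hρ]
      exact Finset.card_image_le
    have h2 : 0 < R.card := Finset.card_pos.2 ⟨ρ, hρ⟩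
    rw [Finset.card_erase_of_mem hg]
    omega

end Pool.Agent.LibTP76
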