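import Pool.Agent.LibTP76.A1
import Pool.Agent.LibTP76.P1

/-!
A complete intersection presentation on the minimal generators (atoms).
-/

set_option autoImplicit false

namespace Pool.Agent.LibTP76

theorem P2_aux (S : AddSubmonoid ℕ) (n : ℕ) : ∀ (G : Finset ℕ)
    (R : Finset (Multiset ℕ × Multiset ℕ)), G.card = n → (∀ g ∈ G, 0 < g) →
    AddSubmonoid.closure (G : Set ℕ) = S → Pres G R → R.card + 1 ≤ G.card →
    ∃ (G : Finset ℕ) (R : Finset (Multiset ℕ × Multiset ℕ)), (∀ g, g ∈ G ↔ Atom S g) ∧
      (∀ g ∈ G, 0 < g) ∧ AddSubmonoid.closure (G : Set ℕ) = S ∧ Pres G R ∧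
      R.card + 1 ≤ G.card := by
  induction n with
  | zero =>
    intro G R hn _ _ _ hc
    omega
  | succ n ih =>
    intro G R hn hpos hcl hP hc
    by_cases hred : ∃ g ∈ G, ∃ M : Multiset ℕ, Over (G.erase g) M ∧ M.sum = g
    · obtain ⟨g, hg, M, hM, hs⟩ := hred
      obtain ⟨R', hP', hc'⟩ := remove_redundant G R hpos hP hc g hg M hM hs
      refine ih (G.erase g) R' (by rw [Finset.card_erase_of_mem hg, hn]; rfl)
        (fun a ha => hpos a (Finset.mem_of_mem_erase ha)) ?_ hP' hc'
      apply le_antisymm
      · rw [← hcl]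
        apply AddSubmonoid.closure_mono
        intro a ha
        exact Finset.mem_of_mem_erase ha
      · rw [← hcl, AddSubmonoid.closure_le]
        intro a ha
        by_cases hag : a = g
        · have h1 := sum_mem_of_over _ M hM
          rw [hs] at h1
          rw [hag]
          exact h1
        · exact AddSubmonoid.subset_closure (Finset.mem_erase.2 ⟨hag, ha⟩)
    · refine ⟨G, R, ?_, hpos, hcl, hP, hc⟩
      have hGS : ∀ g ∈ G, g ∈ S := fun g hg => hcl ▸ AddSubmonoid.subset_closure hg
      intro g
      constructor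
      · intro hg
        refine ⟨hGS g hg, (hpos g hg).ne', ?_⟩
        intro b hb c hc' hbc
        by_contra hne
        push Not at hne
        obtain ⟨hb0, hc0⟩ := hne
        obtain ⟨Mb, hMb, hMb'⟩ := exists_multiset G b (hcl ▸ hb)
        obtain ⟨Mc, hMc, hMc'⟩ := exists_multiset G c (hcl ▸ hc')
        apply hred
        refine ⟨g, hg, Mb + Mc, ?_, by rw [Multiset.sum_add, hMb', hMc', hbc]⟩
        intro a ha
        rcases Multiset.mem_add.1 ha with h | h
        · have h1 : a ≤ Mb.sum := Multiset.single_le_sum (fun x _ => Nat.zero_le x) a h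
          exact Finset.mem_erase.2 ⟨by omega, hMb a h⟩
        · have h1 : a ≤ Mc.sum := Multiset.single_le_sum (fun x _ => Nat.zero_le x) a h
          exact Finset.mem_erase.2 ⟨by omega, hMc a h⟩
      · rintro ⟨hgS, hg0, hat⟩
        obtain ⟨M, hM, hMs⟩ := exists_multiset G g (hcl ▸ hgS)
        induction M using Multiset.induction_on with
        | empty =>
          rw [Multiset.sum_zero] at hMs
          exact absurd hMs.symm hg0
        | cons x M _ =>
          rw [Multiset.sum_cons] at hMs
          have hxG : x ∈ G := hM x (Multiset.mem_cons_self _ _)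
          have hMov : Over G M := fun a ha => hM a (Multiset.mem_cons_of_mem ha)
          have hMS : M.sum ∈ S := hcl ▸ sum_mem_of_over G M hMov
          rcases hat x (hGS x hxG) M.sum hMS hMs with h | h
          · have := hpos x hxG
            omega
          · have : x = g := by omega
            rw [← this]; exact hxG

theorem ci_atoms (S : AddSubmonoid ℕ) (h : CI S) :
    ∃ (G : Finset ℕ) (R : Finset (Multiset ℕ × Multiset ℕ)), (∀ g, g ∈ G ↔ Atom S g) ∧
      (∀ g ∈ G, 0 < g) ∧ AddSubmonoid.closure (G : Set ℕ) = S ∧ Pres G R ∧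
      R.card + 1 ≤ G.card := by
  obtain ⟨G, R, hpos, hcl, hP, hc⟩ := h
  exact P2_aux S G.card G R rfl hpos hcl hP hc

end Pool.Agent.LibTP76
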