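import Mathlib

/-!
# Cyclotomic numerical semigroups all of whose zeros have orders with two prime factors

Definitions for MP_bce407_al (`TwoPrimeZeros`).
-/

set_option autoImplicit false

namespace Pool.Agent.LibTP76

open Polynomial

/-! ### Presentations of numerical semigroups by multisets -/

/-- A multiset of generators taken from `G`. -/
def Over (G : Finset ℕ) (M : Multiset ℕ) : Prop := ∀ a ∈ M, a ∈ G

/-- One rewriting step (in either direction) by a relation of `R`. -/
def SStep (R : Finset (Multiset ℕ × Multiset ℕ)) (A B : Multiset ℕ) : Prop :=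
  ∃ U V C : Multiset ℕ, ((U, V) ∈ R ∨ (V, U) ∈ R) ∧ A = U + C ∧ B = V + C

/-- Connected by a chain of rewriting steps. -/
def Conn (R : Finset (Multiset ℕ × Multiset ℕ)) : Multiset ℕ → Multiset ℕ → Prop :=
  Relation.ReflTransGen (SStep R)

/-- `R` is a presentation for the generating set `G`. -/
structure Pres (G : Finset ℕ) (R : Finset (Multiset ℕ × Multiset ℕ)) : Prop where
  ov : ∀ r ∈ R, Over G r.1 ∧ Over G r.2
  bal : ∀ r ∈ R, r.1.sum = r.2.sum
  gen : ∀ A B : Multiset ℕ, Over G A → Over G B → A.sum = B.sum → Conn R A B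

/-- Complete intersection, for some (not necessarily minimal) set of positive generators. -/
def CI (S : AddSubmonoid ℕ) : Prop :=
  ∃ (G : Finset ℕ) (R : Finset (Multiset ℕ × Multiset ℕ)), (∀ g ∈ G, 0 < g) ∧
    AddSubmonoid.closure (G : Set ℕ) = S ∧ Pres G R ∧ R.card + 1 ≤ G.card

/-- `a` is an atom (minimal generator) of `S`. -/
def Atom (S : AddSubmonoid ℕ) (a : ℕ) : Prop :=
  a ∈ S ∧ a ≠ 0 ∧ ∀ b ∈ S, ∀ c ∈ S, b + c = a → b = 0 ∨ c = 0

/-! ### Classes modulo `d` -/

/-- `s` is the least element of `S` in its class modulo `d`. -/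
def Low (S : AddSubmonoid ℕ) (d s : ℕ) : Prop :=
  s ∈ S ∧ ∀ t ∈ S, t ≡ s [MOD d] → s ≤ t

/-- The hypothesis of the lifting theorem: `d ∉ S`, `d * q, d * p ∈ S` and every class of `S`
modulo `d` is a translate of the semigroup generated by `d * q` and `d * p`. -/
structure Glu (S : AddSubmonoid ℕ) (d p q : ℕ) : Prop where
  d0 : 0 < d
  p1 : 1 < p
  q1 : 1 < q
  cop : Nat.Coprime p q
  dS : d ∉ S
  xS : d * q ∈ S
  yS : d * p ∈ S
  cls : ∀ t ∈ S, ∃ s u v : ℕ, Low S d s ∧ t = s + u * (d * q) + v * (d * p)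

/-- The least element of `S` in the class of `t` modulo `d` (for `t ∈ S`). -/
noncomputable def low (S : AddSubmonoid ℕ) (d t : ℕ) : ℕ := sInf {s | s ∈ S ∧ s ≡ t [MOD d]}

/-- `t = low t + kk t * d` for `t ∈ S`. -/
noncomputable def kk (S : AddSubmonoid ℕ) (d t : ℕ) : ℕ := (t - low S d t) / d

/-- Series of the least elements of the classes modulo `d`. -/
noncomputable def LL (S : AddSubmonoid ℕ) (d : ℕ) : PowerSeries ℤ := by
  classical
  exact PowerSeries.mk fun n => if Low S d n then 1 else 0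

/-- `w` is in the Apery set of `S` with respect to `y`. -/
def Ap (S : AddSubmonoid ℕ) (y w : ℕ) : Prop := w ∈ S ∧ ∀ s ∈ S, s + y ≠ w

/-- `S + d ℕ` -/
def plus (S : AddSubmonoid ℕ) (d : ℕ) : AddSubmonoid ℕ := S ⊔ AddSubmonoid.closure {d}

/-! ### Semigroup polynomials -/

/-- The semigroup polynomial. -/
noncomputable def PP (S : AddSubmonoid ℕ) (hS : ((S : Set ℕ)ᶜ).Finite) : ℤ[X] :=
  1 - (1 - X) * ∑ n ∈ hS.toFinset, X ^ n

/-- The Hilbert series of `S`. -/
noncomputable def HH (S : AddSubmonoid ℕ) : PowerSeries ℤ := by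
  classical
  exact PowerSeries.mk fun n => if n ∈ S then 1 else 0

/-- Ramanujan sum. -/
def ram (n N : ℕ) : ℤ := ∑ k ∈ n.divisors, if k ∣ N then (k : ℤ) * ArithmeticFunction.moebius (n / k) else 0

/-- The weight of the zero `n`: sum of `μ (n / j)` over the divisors `j` of `n` outside `S`. -/
noncomputable def ee (S : AddSubmonoid ℕ) (n : ℕ) : ℤ := by
  classical
  exact ∑ j ∈ n.divisors, if j ∈ S then 0 else ArithmeticFunction.moebius (n / j)

/-- The (finite) Apery set of `S` with respect to `y`, as a polynomial. -/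
noncomputable def WW (S : AddSubmonoid ℕ) (hS : ((S : Set ℕ)ᶜ).Finite) (y : ℕ) : ℤ[X] := by
  classical
  exact ∑ w ∈ (Finset.range (hS.toFinset.sup id + y + 1)).filter
    (fun w => Ap S y w), X ^ w

end Pool.Agent.LibTP76
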