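import Pool.Agent.LibTP76.P2

/-!
ROW P3: from a complete intersection presentation to the kernel of `x_i ↦ t ^ (g i)`.

Take `G, R` from `ci_atoms`. `Set.range g` is the set of atoms, so `G.card = e` (`g` is injective).
For a multiset `M` over `G` put `mon M := (M.map (fun a => X (ix a))).prod` with `ix a : Fin e` the
index with `g (ix a) = a` (for `e = 0` there is no atom, so `G = ∅`, contradiction with
`R.card + 1 ≤ G.card`; so `e ≥ 1` and `ix` can be defined by choice, default `0`).
`s := R.image (fun r => mon r.1 - mon r.2)`. Then copy the proof of `ideal_of_CI` in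
`Pool/Agent/CycE4/Ideal.lean` (outputs/live; the case `e = 4` with exponent vectors): if
`A.sum = B.sum` then `mon A - mon B ∈ J := span s` (induction along `Conn R A B`: for a step
`mon (U + C) - mon (V + C) = (mon U - mon V) * mon C`), and every polynomial `p` satisfies
`p - ψ (ev p) ∈ J`, where `ψ (c T ^ n) = c • mon (τ n)`, `τ n` a chosen multiset over `G` with sum `n`.
A monomial with exponent vector `m : Fin e →₀ ℕ` is `mon (∑ i, m i • {g i})`.
-/

set_option autoImplicit false

namespace Pool.Agent.LibTP76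

/-- the multiset of generators of an exponent vector -/
noncomputable def P3_T {e : ℕ} (g : Fin e → ℕ) (m : Fin e →₀ ℕ) : Multiset ℕ :=
  (Finsupp.toMultiset m).map g

/-- the monomial of a multiset of generators -/
noncomputable def P3_mon {e : ℕ} (ix : ℕ → Fin e) (M : Multiset ℕ) : MvPolynomial (Fin e) ℚ :=
  (M.map (fun a => MvPolynomial.X (ix a))).prod

lemma P3_mon_add {e : ℕ} (ix : ℕ → Fin e) (A B : Multiset ℕ) :
    P3_mon ix (A + B) = P3_mon ix A * P3_mon ix B := by
  rw [P3_mon, P3_mon, P3_mon, Multiset.map_add, Multiset.prod_add]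

lemma P3_prod {e : ℕ} (m : Fin e →₀ ℕ) :
    ((Finsupp.toMultiset m).map (fun i => (MvPolynomial.X i : MvPolynomial (Fin e) ℚ))).prod =
      MvPolynomial.monomial m 1 := by
  induction m using Finsupp.induction_linear with
  | zero => simp
  | add a b ha hb =>
    rw [map_add, Multiset.map_add, Multiset.prod_add, ha, hb, MvPolynomial.monomial_mul, mul_one]
  | single i n =>
    rw [Finsupp.toMultiset_single, Multiset.map_nsmul, Multiset.prod_nsmul,
      Multiset.map_singleton, Multiset.prod_singleton, MvPolynomial.X_pow_eq_monomial]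

lemma P3_mon_T {e : ℕ} (g : Fin e → ℕ) (ix : ℕ → Fin e) (hix : ∀ i, ix (g i) = i)
    (m : Fin e →₀ ℕ) : P3_mon ix (P3_T g m) = MvPolynomial.monomial m 1 := by
  rw [P3_mon, P3_T, Multiset.map_map, ← P3_prod m]
  congr 1
  refine Multiset.map_congr rfl fun i _ => ?_
  rw [Function.comp_apply, hix]

lemma P3_ev_mon {e : ℕ} (g : Fin e → ℕ) (ix : ℕ → Fin e) (M : Multiset ℕ)
    (hM : ∀ a ∈ M, g (ix a) = a) :
    MvPolynomial.aeval (R := ℚ) (fun i : Fin e => (Polynomial.X : Polynomial ℚ) ^ g i)
      (P3_mon ix M) = Polynomial.X ^ M.sum := by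
  rw [P3_mon, map_multiset_prod, Multiset.map_map]
  have h1 : M.map ((MvPolynomial.aeval (R := ℚ)
      (fun i : Fin e => (Polynomial.X : Polynomial ℚ) ^ g i)) ∘
        (fun a => (MvPolynomial.X (ix a) : MvPolynomial (Fin e) ℚ))) =
      M.map (fun a => (Polynomial.X : Polynomial ℚ) ^ a) := by
    refine Multiset.map_congr rfl fun a ha => ?_
    rw [Function.comp_apply, MvPolynomial.aeval_X, hM a ha]
  rw [h1]
  clear h1 hM
  induction M using Multiset.induction_on with
  | empty => simp
  | cons a M ih => rw [Multiset.map_cons, Multiset.prod_cons, ih, Multiset.sum_cons, pow_add]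

lemma P3_conn {e : ℕ} (ix : ℕ → Fin e) (R : Finset (Multiset ℕ × Multiset ℕ))
    (J : Ideal (MvPolynomial (Fin e) ℚ)) (hJ : ∀ r ∈ R, P3_mon ix r.1 - P3_mon ix r.2 ∈ J)
    {A B : Multiset ℕ} (h : Conn R A B) : P3_mon ix A - P3_mon ix B ∈ J := by
  induction h with
  | refl => rw [sub_self]; exact J.zero_mem
  | tail _ hs ih =>
    obtain ⟨U, V, C, hUV, rfl, rfl⟩ := hs
    have h1 : P3_mon ix U - P3_mon ix V ∈ J := by
      rcases hUV with h2 | h2
      · exact hJ _ h2
      · rw [← neg_sub]
        exact J.neg_mem (hJ _ h2)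
    have h2 : P3_mon ix (U + C) - P3_mon ix (V + C) ∈ J := by
      rw [P3_mon_add, P3_mon_add, ← sub_mul]
      exact J.mul_mem_right _ h1
    have h3 := J.add_mem ih h2
    rwa [sub_add_sub_cancel] at h3

theorem ideal_of_ci (S : AddSubmonoid ℕ) (h : CI S) (e : ℕ) (g : Fin e → ℕ) (hmono : StrictMono g)
    (hg : Set.range g = {x : ℕ | x ∈ S ∧ x ≠ 0 ∧ ∀ a ∈ S, ∀ b ∈ S, a + b = x → a = 0 ∨ b = 0}) :
    ∃ s : Finset (MvPolynomial (Fin e) ℚ), s.card ≤ e - 1 ∧
      Ideal.span (s : Set (MvPolynomial (Fin e) ℚ))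
        = RingHom.ker (MvPolynomial.aeval (R := ℚ)
            (fun i : Fin e => (Polynomial.X : Polynomial ℚ) ^ g i)) := by
  classical
  obtain ⟨G, R, hG, -, -, hP, hc⟩ := ci_atoms S h
  have hrange : ∀ a, a ∈ G ↔ a ∈ Set.range g := by
    intro a
    rw [hG, hg]
    rfl
  have hGi : G = Finset.univ.image g := by
    ext a
    rw [hrange, Finset.mem_image]
    simp
  have hcard : G.card = e := by
    rw [hGi, Finset.card_image_of_injective _ hmono.injective, Finset.card_univ, Fintype.card_fin]
  have he : 0 < e := by omega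
  have : Nonempty (Fin e) := ⟨⟨0, he⟩⟩
  set ix : ℕ → Fin e := Function.invFun g with hixdef
  have hix : ∀ i, ix (g i) = i := Function.leftInverse_invFun hmono.injective
  have hix' : ∀ a ∈ G, g (ix a) = a := fun a ha => Function.invFun_eq ((hrange a).1 ha)
  refine ⟨R.image (fun r => P3_mon ix r.1 - P3_mon ix r.2), ?_, ?_⟩
  · refine le_trans Finset.card_image_le ?_
    omega
  · set J : Ideal (MvPolynomial (Fin e) ℚ) := Ideal.span
      ((R.image (fun r => P3_mon ix r.1 - P3_mon ix r.2) : Finset _) :
        Set (MvPolynomial (Fin e) ℚ)) with hJ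
    have hJmem : ∀ r ∈ R, P3_mon ix r.1 - P3_mon ix r.2 ∈ J := by
      intro r hr
      apply Ideal.subset_span
      exact Finset.mem_coe.2 (Finset.mem_image_of_mem _ hr)
    have hR : ∀ A B : Multiset ℕ, Over G A → Over G B → A.sum = B.sum →
        P3_mon ix A - P3_mon ix B ∈ J := fun A B hA hB hAB =>
      P3_conn ix R J hJmem (hP.gen A B hA hB hAB)
    have hT : ∀ m : Fin e →₀ ℕ, Over G (P3_T g m) := by
      intro m a ha
      obtain ⟨i, -, rfl⟩ := Multiset.mem_map.1 ha
      exact (hrange _).2 ⟨i, rfl⟩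
    set ev := MvPolynomial.aeval (R := ℚ)
      (fun i : Fin e => (Polynomial.X : Polynomial ℚ) ^ g i) with hev
    have hevm : ∀ M : Multiset ℕ, Over G M → ev (P3_mon ix M) = Polynomial.X ^ M.sum :=
      fun M hM => P3_ev_mon g ix M fun a ha => hix' a (hM a ha)
    apply le_antisymm
    · rw [hJ, Ideal.span_le]
      intro x hx
      obtain ⟨r, hr, rfl⟩ := Finset.mem_image.1 (Finset.mem_coe.1 hx)
      change ev _ = 0
      rw [map_sub, hevm _ (hP.ov r hr).1, hevm _ (hP.ov r hr).2, hP.bal r hr, sub_self]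
    · let τ : ℕ → Multiset ℕ := fun n => if h : ∃ M, Over G M ∧ M.sum = n then h.choose else 0
      have hτ : ∀ M, Over G M → Over G (τ M.sum) ∧ (τ M.sum).sum = M.sum := by
        intro M hM
        have hex : ∃ M', Over G M' ∧ M'.sum = M.sum := ⟨M, hM, rfl⟩
        simp only [τ]
        rw [dif_pos hex]
        exact hex.choose_spec
      let ψ : Polynomial ℚ →ₗ[ℚ] MvPolynomial (Fin e) ℚ :=
        Polynomial.lsum (fun n => LinearMap.toSpanSingleton ℚ _ (P3_mon ix (τ n)))
      have hψ : ∀ n (c : ℚ), ψ (c • Polynomial.X ^ n) = c • P3_mon ix (τ n) := by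
        intro n c
        rw [map_smul]
        congr 1
        rw [← Polynomial.monomial_one_right_eq_X_pow]
        simp only [ψ, Polynomial.lsum_apply]
        rw [Polynomial.sum_monomial_index _ _ (by simp)]
        simp
      have key : ∀ p : MvPolynomial (Fin e) ℚ, p - ψ (ev p) ∈ J := by
        intro p
        induction p using MvPolynomial.induction_on' with
        | monomial m c =>
          have h1 : (MvPolynomial.monomial m c : MvPolynomial (Fin e) ℚ) =
              c • P3_mon ix (P3_T g m) := by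
            rw [P3_mon_T g ix hix, MvPolynomial.smul_monomial, smul_eq_mul, mul_one]
          rw [h1, map_smul, hevm _ (hT m), hψ, ← smul_sub, MvPolynomial.smul_eq_C_mul]
          apply J.mul_mem_left
          exact hR _ _ (hT m) (hτ _ (hT m)).1 (hτ _ (hT m)).2.symm
        | add p q hp hq =>
          rw [map_add, map_add, add_sub_add_comm]
          exact J.add_mem hp hq
      intro p hp
      have hp' : ev p = 0 := hp
      have h1 := key p
      rwa [hp', map_zero, sub_zero] at h1

end Pool.Agent.LibTP76
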