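import Pool.Agent.LibTP76.S3

/-!
ROW S4: existence of a good pair.

`one_not_mem`: evaluate `PP S hS` at `1`: it is `1`, but `Φ_1 (1) = 0`.
`ee_pos`: `n ≠ 1`, at most two prime factors, `ee S n > 0` ⇒ conclusion. Cases: `n = 0`: `ee = 0`.
`n = p ^ a`, `a ≥ 1`: only `j = n` and `j = n / p` contribute (`μ (p ^ i) = 0` for `i ≥ 2`):
`ee = [n ∉ S] - [n / p ∉ S] ≤ 0` because `n ∉ S ⇒ n / p ∉ S`. `n = p ^ a q ^ b`: the `j` with
`μ (n / j) ≠ 0` are `n, n/p, n/q, n/(pq)`, so
`ee = [n ∉ S] - [n/p ∉ S] - [n/q ∉ S] + [n/(pq) ∉ S]`; this is `> 0` only if `n/p, n/q ∈ S` and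
`n/(pq) ∉ S`. Put `d = n / (p q)`.
A convenient way: `∑_{j ∣ n} f j μ (n / j) = ∑_{k ∣ n} μ k f (n / k)` (`Nat.sum_div_divisors`), and the
squarefree divisors of `n` are the products of subsets of `n.primeFactors`
(`Nat.sum_divisors_filter_squarefree`).
-/

set_option autoImplicit false

namespace Pool.Agent.LibTP76

open Polynomial

theorem S4_ee (S : AddSubmonoid ℕ) (n : ℕ) (h0 : n ≠ 0) (f : ℕ → ℤ)
    (hf : ∀ j, f j = by classical exact if j ∈ S then 0 else 1) :
    ee S n = ∑ t ∈ n.primeFactors.powerset,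
      ArithmeticFunction.moebius (∏ i ∈ t, i) * f (n / ∏ i ∈ t, i) := by
  classical
  have h1 : ee S n = ∑ j ∈ n.divisors, ArithmeticFunction.moebius j * f (n / j) := by
    unfold ee
    rw [← Nat.sum_div_divisors n (fun j => ArithmeticFunction.moebius j * f (n / j))]
    refine Finset.sum_congr rfl fun j hj => ?_
    have hjn := Nat.dvd_of_mem_divisors hj
    rw [Nat.div_div_self hjn h0, hf]
    by_cases h : j ∈ S
    · simp [h]
    · simp [h]
  rw [h1]
  have h2 : ∑ j ∈ n.divisors, ArithmeticFunction.moebius j * f (n / j) =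
      ∑ j ∈ n.divisors with Squarefree j, ArithmeticFunction.moebius j * f (n / j) := by
    rw [Finset.sum_filter]
    refine Finset.sum_congr rfl fun j hj => ?_
    by_cases h : Squarefree j
    · simp [h]
    · simp [h, ArithmeticFunction.moebius_eq_zero_of_not_squarefree h]
  rw [h2, Nat.sum_divisors_filter_squarefree h0, Nat.factors_eq]
  refine Finset.sum_congr ?_ fun t ht => ?_
  · rw [Nat.primeFactors]; rfl
  · simp [Finset.prod_val]

theorem one_not_mem (S : AddSubmonoid ℕ) (hS : ((S : Set ℕ)ᶜ).Finite) (m : Multiset ℕ)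
    (hm : PP S hS = (m.map (fun k => cyclotomic k ℤ)).prod) : 1 ∉ m := by
  intro h
  have h1 := congrArg (Polynomial.eval 1) hm
  obtain ⟨m', rfl⟩ := Multiset.exists_cons_of_mem h
  rw [Multiset.map_cons, Multiset.prod_cons, eval_mul] at h1
  simp [PP] at h1

theorem ee_pos (S : AddSubmonoid ℕ) (n : ℕ) (h1 : n ≠ 1) (h2 : n.primeFactors.card ≤ 2)
    (he : 0 < ee S n) :
    ∃ d p q : ℕ, 0 < d ∧ p.Prime ∧ q.Prime ∧ p ≠ q ∧ n = d * p * q ∧
      (∀ r : ℕ, r.Prime → r ∣ d → r = p ∨ r = q) ∧ d ∉ S ∧ d * q ∈ S ∧ d * p ∈ S := by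
  classical
  have h0 : n ≠ 0 := by
    rintro rfl
    simp [ee] at he
  have hmul : ∀ a b : ℕ, a ∈ S → b * a ∈ S := by
    intro a b ha
    have := S.nsmul_mem ha b
    simpa using this
  rw [S4_ee S n h0 (fun j => if j ∈ S then 0 else 1) (fun j => rfl)] at he
  have hc : n.primeFactors.card = 0 ∨ n.primeFactors.card = 1 ∨ n.primeFactors.card = 2 := by
    omega
  rcases hc with hc | hc | hc
  · rw [Finset.card_eq_zero, Nat.primeFactors_eq_empty] at hc
    omega
  · obtain ⟨p, hp⟩ := Finset.card_eq_one.1 hc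
    have hpp : p.Prime := Nat.prime_of_mem_primeFactors (n := n) (by rw [hp]; simp)
    have hpn : p ∣ n := Nat.dvd_of_mem_primeFactors (n := n) (by rw [hp]; simp)
    exfalso
    rw [hp, show ({p} : Finset ℕ) = insert p ∅ from rfl, Finset.sum_powerset_insert (by simp)] at he
    simp only [Finset.powerset_empty, Finset.sum_singleton, Finset.prod_empty,
      ArithmeticFunction.moebius_apply_one, Nat.div_one, one_mul, insert_empty_eq,
      Finset.prod_singleton, ArithmeticFunction.moebius_apply_prime hpp] at he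
    by_cases hnS : n ∈ S
    · simp only [hnS, if_true] at he
      split_ifs at he <;> simp at he
    · have : n / p ∉ S := by
        intro h
        have := hmul _ p h
        rw [Nat.mul_div_cancel' hpn] at this
        exact hnS this
      simp [hnS, this] at he
  · obtain ⟨p, q, hpq, hp⟩ := Finset.card_eq_two.1 hc
    have hpp : p.Prime := Nat.prime_of_mem_primeFactors (n := n) (by rw [hp]; simp)
    have hqp : q.Prime := Nat.prime_of_mem_primeFactors (n := n) (by rw [hp]; simp)
    have hpn : p ∣ n := Nat.dvd_of_mem_primeFactors (n := n) (by rw [hp]; simp)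
    have hqn : q ∣ n := Nat.dvd_of_mem_primeFactors (n := n) (by rw [hp]; simp)
    have hpqc : Nat.Coprime p q := (Nat.coprime_primes hpp hqp).2 hpq
    have hpqn : p * q ∣ n := hpqc.mul_dvd_of_dvd_of_dvd hpn hqn
    obtain ⟨d, hd⟩ := hpqn
    have hd0 : 0 < d := by
      rcases Nat.eq_zero_or_pos d with h | h
      · subst h; simp at hd; exact absurd hd h0
      · exact h
    have hdp : n / p = d * q := by
      rw [hd, mul_assoc, Nat.mul_div_cancel_left _ hpp.pos, mul_comm]
    have hdq : n / q = d * p := by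
      rw [hd, mul_comm p q, mul_assoc, Nat.mul_div_cancel_left _ hqp.pos, mul_comm]
    have hdpq : n / (p * q) = d := by
      rw [hd, Nat.mul_div_cancel_left _ (Nat.mul_pos hpp.pos hqp.pos)]
    rw [hp, show ({p, q} : Finset ℕ) = insert p (insert q ∅) from rfl,
      Finset.sum_powerset_insert (by simp [hpq]), Finset.sum_powerset_insert (by simp),
      Finset.sum_powerset_insert (by simp)] at he
    simp only [Finset.powerset_empty, Finset.sum_singleton, Finset.prod_empty,
      ArithmeticFunction.moebius_apply_one, Nat.div_one, one_mul, insert_empty_eq,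
      Finset.prod_singleton, ArithmeticFunction.moebius_apply_prime hpp,
      ArithmeticFunction.moebius_apply_prime hqp, Finset.prod_pair hpq, hdp, hdq, hdpq,
      ArithmeticFunction.isMultiplicative_moebius.map_mul_of_coprime hpqc] at he
    have hnd : n = d * p * q := by rw [hd]; ring
    have k1 : d ∈ S → d * p ∈ S := fun h => by
      have := hmul d p h
      rwa [mul_comm] at this
    have k2 : d ∈ S → d * q ∈ S := fun h => by
      have := hmul d q h
      rwa [mul_comm] at this
    have k3 : d * p ∈ S → n ∈ S := fun h => by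
      have := hmul _ q h
      rw [hnd, mul_comm]; exact this
    have k4 : d * q ∈ S → n ∈ S := fun h => by
      have := hmul _ p h
      rw [hnd, show d * p * q = p * (d * q) by ring]; exact this
    have hfin : d ∉ S ∧ d * q ∈ S ∧ d * p ∈ S := by
      by_cases a1 : d ∈ S
      · exfalso
        simp [a1, k1 a1, k2 a1, k3 (k1 a1)] at he
      · by_cases a2 : d * q ∈ S
        · by_cases a3 : d * p ∈ S
          · exact ⟨a1, a2, a3⟩
          · exfalso
            simp [a1, a2, a3, k4 a2] at he
        · by_cases a3 : d * p ∈ S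
          · exfalso
            simp [a1, a2, a3, k3 a3] at he
          · exfalso
            by_cases a4 : n ∈ S
            · simp [a1, a2, a3, a4] at he
            · simp [a1, a2, a3, a4] at he
    refine ⟨d, p, q, hd0, hpp, hqp, hpq, hnd, ?_, hfin⟩
    intro r hr hrd
    have : r ∈ n.primeFactors :=
      Nat.mem_primeFactors.2 ⟨hr, hrd.trans (by rw [hnd, mul_assoc]; exact Dvd.intro _ rfl), h0⟩
    rw [hp] at this
    simpa using this

theorem good_pair (S : AddSubmonoid ℕ) (hS : ((S : Set ℕ)ᶜ).Finite) (m : Multiset ℕ)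
    (hm : PP S hS = (m.map (fun k => cyclotomic k ℤ)).prod) (h1 : 1 ∉ S)
    (h2 : ∀ k ∈ m, k.primeFactors.card ≤ 2) :
    ∃ n ∈ m, ∃ d p q : ℕ, 0 < d ∧ p.Prime ∧ q.Prime ∧ p ≠ q ∧ n = d * p * q ∧
      (∀ r : ℕ, r.Prime → r ∣ d → r = p ∨ r = q) ∧ d ∉ S ∧ d * q ∈ S ∧ d * p ∈ S := by
  have hs := sum_ee S hS m hm h1
  have hex : ∃ n ∈ m, 0 < ee S n := by
    by_contra hcon
    push Not at hcon
    have : (m.map (fun n => ee S n)).sum ≤ 0 := by
      have := Multiset.sum_le_card_nsmul (m.map (fun n => ee S n)) 0 (by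
        intro x hx
        obtain ⟨n, hn, rfl⟩ := Multiset.mem_map.1 hx
        exact hcon n hn)
      simpa using this
    omega
  obtain ⟨n, hn, hpos⟩ := hex
  refine ⟨n, hn, ee_pos S n ?_ (h2 n hn) hpos⟩
  rintro rfl
  exact one_not_mem S hS m hm hn

end Pool.Agent.LibTP76
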