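import Pool.Agent.LibTP76.Defs

/-!
ROW A1: the semigroup `plus S d = S + d ℕ`, its atoms, classes modulo `d`.
Elementary arithmetic; every proof is a few lines.

* `mem_plus`: `AddSubmonoid.mem_sup` and `AddSubmonoid.mem_closure_singleton`.
* `exists_multiset`: an element of `closure G` is the sum of a multiset over `G`
  (`AddSubmonoid.closure_induction`, or `AddSubmonoid.exists_multiset_of_mem_closure`).
* `atom_d`: if `a + b = d` with `a = s + k d`, `b = s' + k' d`, then `k = k' = 0` unless the other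
  one is `0`; and `s + s' = d` is impossible as `d ∉ S`.
* `low_of_atom`: `g = s + k d` atom, `g ≠ d` ⇒ `k = 0`, so `g ∈ S`. If `t ∈ S`, `t ≡ g`, `t < g`,
  then `g = t + k d`, `k ≥ 1`, so `t = 0` or `k d = 0`; `t = 0` gives `g = k d`, atom, so `g = d`.
* `not_mem_of_low`: if `d ∈ M` then `s = d + (sum of the rest) = s' + (k+1) d` with `s' ∈ S`,
  `s' < s`, `s' ≡ s`, contradiction.
-/

set_option autoImplicit false

namespace Pool.Agent.LibTP76

theorem mem_plus (S : AddSubmonoid ℕ) (d t : ℕ) :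
    t ∈ plus S d ↔ ∃ s ∈ S, ∃ k : ℕ, t = s + k * d := by
  unfold plus
  rw [AddSubmonoid.mem_sup]
  constructor
  · rintro ⟨s, hs, z, hz, rfl⟩
    obtain ⟨k, rfl⟩ := AddSubmonoid.mem_closure_singleton.1 hz
    exact ⟨s, hs, k, by simp⟩
  · rintro ⟨s, hs, k, rfl⟩
    exact ⟨s, hs, k * d, AddSubmonoid.mem_closure_singleton.2 ⟨k, by simp⟩, rfl⟩

theorem exists_multiset (G : Finset ℕ) (t : ℕ) (ht : t ∈ AddSubmonoid.closure (G : Set ℕ)) :
    ∃ M : Multiset ℕ, Over G M ∧ M.sum = t := by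
  obtain ⟨M, hM, hs⟩ := AddSubmonoid.exists_multiset_of_mem_closure ht
  exact ⟨M, fun a ha => by simpa using hM a ha, hs⟩

theorem sum_mem_of_over (G : Finset ℕ) (M : Multiset ℕ) (hM : Over G M) :
    M.sum ∈ AddSubmonoid.closure (G : Set ℕ) :=
  AddSubmonoid.multiset_sum_mem _ _
    (fun a ha => AddSubmonoid.subset_closure (Finset.mem_coe.2 (hM a ha)))

theorem A1_d_mem (S : AddSubmonoid ℕ) (d : ℕ) : d ∈ plus S d :=
  (mem_plus S d d).2 ⟨0, S.zero_mem, 1, by simp⟩

theorem A1_mul_mem (S : AddSubmonoid ℕ) (d k : ℕ) : k * d ∈ plus S d :=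
  (mem_plus S d (k * d)).2 ⟨0, S.zero_mem, k, by simp⟩

theorem A1_mem (S : AddSubmonoid ℕ) (d s : ℕ) (hs : s ∈ S) : s ∈ plus S d :=
  (mem_plus S d s).2 ⟨s, hs, 0, by simp⟩

theorem A1_atom_mul (S : AddSubmonoid ℕ) (d k : ℕ) (hd : 0 < d)
    (hg : Atom (plus S d) (k * d)) : k * d = d := by
  obtain ⟨_, h0, h⟩ := hg
  rcases k with _ | k
  · simp at h0
  · rcases h (k * d) (A1_mul_mem S d k) d (A1_d_mem S d) (by ring) with h1 | h1
    · rw [Nat.succ_mul, h1]; simp
    · omega

theorem atom_d (S : AddSubmonoid ℕ) (d : ℕ) (hd : 0 < d) (hdS : d ∉ S) :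
    Atom (plus S d) d := by
  refine ⟨A1_d_mem S d, by omega, ?_⟩
  intro a ha b hb hab
  obtain ⟨s, hs, k, rfl⟩ := (mem_plus S d a).1 ha
  obtain ⟨s', hs', k', rfl⟩ := (mem_plus S d b).1 hb
  rcases k with _ | k
  · rcases k' with _ | k'
    · exfalso
      apply hdS
      have : s + s' = d := by simpa using hab
      rw [← this]
      exact S.add_mem hs hs'
    · left
      have e : (k' + 1) * d = k' * d + d := by ring
      rw [e] at hab
      simp only [Nat.zero_mul, Nat.add_zero] at hab ⊢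
      omega
  · right
    have e : (k + 1) * d = k * d + d := by ring
    rw [e] at hab
    omega

theorem low_of_atom (S : AddSubmonoid ℕ) (d g : ℕ) (hd : 0 < d)
    (hg : Atom (plus S d) g) (hgd : g ≠ d) : Low S d g := by
  have hgm := hg.1
  obtain ⟨s, hs, k, hk⟩ := (mem_plus S d g).1 hgm
  have hk0 : k * d = 0 := by
    rcases hg.2.2 s (A1_mem S d s hs) (k * d) (A1_mul_mem S d k) hk.symm with h | h
    · exfalso
      apply hgd
      have e : g = k * d := by rw [hk, h]; simp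
      rw [e] at hg ⊢
      exact A1_atom_mul S d k hd hg
    · exact h
  have hgs : g = s := by rw [hk, hk0]; simp
  refine ⟨by rw [hgs]; exact hs, ?_⟩
  intro t ht hmod
  by_contra hlt
  push Not at hlt
  obtain ⟨m, hm⟩ := (Nat.modEq_iff_dvd' hlt.le).1 hmod
  have hgt : t + m * d = g := by
    have : g - t = m * d := by rw [hm]; ring
    omega
  rcases hg.2.2 t (A1_mem S d t ht) (m * d) (A1_mul_mem S d m) hgt with h | h
  · apply hgd
    have e : g = m * d := by rw [← hgt, h]; simp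
    rw [e] at hg ⊢
    exact A1_atom_mul S d m hd hg
  · omega

theorem not_mem_of_low (S : AddSubmonoid ℕ) (d s : ℕ) (hd : 0 < d) (hs : Low S d s)
    (M : Multiset ℕ) (hM : ∀ a ∈ M, a ∈ plus S d) (hsum : M.sum = s) : d ∉ M := by
  intro hdM
  obtain ⟨M', rfl⟩ := Multiset.exists_cons_of_mem hdM
  have hM' : M'.sum ∈ plus S d :=
    AddSubmonoid.multiset_sum_mem _ _ (fun a ha => hM a (Multiset.mem_cons_of_mem ha))
  obtain ⟨s', hs', k, hk⟩ := (mem_plus S d _).1 hM'
  rw [Multiset.sum_cons, hk] at hsum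
  have e : s = s' + (k + 1) * d := by rw [← hsum]; ring
  have hmod : s' ≡ s [MOD d] := by
    rw [e]
    unfold Nat.ModEq
    simp
  have := hs.2 s' hs' hmod
  have e2 : (k + 1) * d = k * d + d := by ring
  rw [e2] at e
  omega

end Pool.Agent.LibTP76
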