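import Pool.Agent.LibTP76.Defs

/-!
The functions `low` and `kk`.
-/

set_option autoImplicit false

namespace Pool.Agent.LibTP76

theorem low_spec (S : AddSubmonoid ℕ) (d t : ℕ) (ht : t ∈ S) :
    Low S d (low S d t) ∧ low S d t ≡ t [MOD d] ∧ low S d t ≤ t := by
  have hne : ({s | s ∈ S ∧ s ≡ t [MOD d]} : Set ℕ).Nonempty := ⟨t, ht, rfl⟩
  have h1 := Nat.sInf_mem hne
  refine ⟨⟨h1.1, ?_⟩, h1.2, Nat.sInf_le ⟨ht, rfl⟩⟩
  intro s hs hst
  exact Nat.sInf_le ⟨hs, hst.trans h1.2⟩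

theorem low_congr (S : AddSubmonoid ℕ) (d t t' : ℕ) (h : t ≡ t' [MOD d]) :
    low S d t = low S d t' := by
  unfold low
  congr 1
  ext s
  exact ⟨fun hs => ⟨hs.1, hs.2.trans h⟩, fun hs => ⟨hs.1, hs.2.trans h.symm⟩⟩

theorem low_unique (S : AddSubmonoid ℕ) (d s s' : ℕ) (hs : Low S d s) (hs' : Low S d s')
    (h : s ≡ s' [MOD d]) : s = s' :=
  le_antisymm (hs.2 s' hs'.1 h.symm) (hs'.2 s hs.1 h)

theorem kk_spec (S : AddSubmonoid ℕ) (d t : ℕ) (hd : 0 < d) (ht : t ∈ S) :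
    t = low S d t + kk S d t * d := by
  obtain ⟨_, h2, h3⟩ := low_spec S d t ht
  have h4 : d ∣ t - low S d t := (Nat.modEq_iff_dvd' h3).1 h2
  unfold kk
  rw [Nat.div_mul_cancel h4]
  omega

theorem kk_form {S : AddSubmonoid ℕ} {d p q : ℕ} (hG : Glu S d p q) (t : ℕ) (ht : t ∈ S) :
    ∃ u v : ℕ, kk S d t = u * q + v * p := by
  obtain ⟨s, u, v, hs, hte⟩ := hG.cls t ht
  have h1 : s ≡ t [MOD d] := by
    rw [hte, Nat.ModEq, show s + u * (d * q) + v * (d * p) = s + d * (u * q + v * p) by ring,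
      Nat.add_mul_mod_self_left]
  have h2 : s = low S d t := low_unique S d _ _ hs (low_spec S d t ht).1
    (h1.trans (low_spec S d t ht).2.1.symm)
  have h3 := kk_spec S d t hG.d0 ht
  refine ⟨u, v, ?_⟩
  rw [← h2] at h3
  have h4 : kk S d t * d = (u * q + v * p) * d := by nlinarith
  exact Nat.eq_of_mul_eq_mul_right hG.d0 h4

end Pool.Agent.LibTP76
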