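import Pool.Agent.LibTP76.C1

/-!
Cancelling a generator from the relations.
-/

set_option autoImplicit false

namespace Pool.Agent.LibTP76

open Multiset

theorem B1_split (d : ℕ) (A : Multiset ℕ) :
    A = A.filter (fun a => a ≠ d) + replicate (A.count d) d := by
  have h := Multiset.filter_add_not (fun a => a ≠ d) A
  conv_lhs => rw [← h]
  congr 1
  have : A.filter (fun a => ¬ a ≠ d) = A.filter (fun a => a = d) := by
    apply Multiset.filter_congr
    intro a _
    simp
  rw [this, Multiset.filter_eq']

theorem B1_over {G : Finset ℕ} {A : Multiset ℕ} (h : Over G A) (d : ℕ) :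
    Over (G.erase d) (A.filter (fun a => a ≠ d)) := by
  intro a ha
  rw [Multiset.mem_filter] at ha
  exact Finset.mem_erase.2 ⟨ha.2, h a ha.1⟩

theorem cancel_rel (G : Finset ℕ) (R : Finset (Multiset ℕ × Multiset ℕ)) (hP : Pres G R)
    (d : ℕ) (hd : d ∈ G) :
    ∃ R1 : Finset (Multiset ℕ × Multiset ℕ), Pres G R1 ∧ R1.card ≤ R.card ∧
      ∀ r ∈ R1, ∃ (U V : Multiset ℕ) (k : ℕ), Over (G.erase d) U ∧ Over (G.erase d) V ∧
        r = (U + Multiset.replicate k d, V) := by
  classical
  set f : Multiset ℕ → Multiset ℕ := fun A => A.filter (fun a => a ≠ d) with hf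
  set L : Multiset ℕ × Multiset ℕ → Multiset ℕ × Multiset ℕ := fun r =>
    if r.2.count d ≤ r.1.count d then (f r.1 + replicate (r.1.count d - r.2.count d) d, f r.2)
    else (f r.2 + replicate (r.2.count d - r.1.count d) d, f r.1) with hL
  have hsub : ∀ a ∈ G.erase d, a ∈ G := fun a ha => Finset.mem_of_mem_erase ha
  have hform : ∀ r ∈ R.image L, ∃ (U V : Multiset ℕ) (k : ℕ), Over (G.erase d) U ∧
      Over (G.erase d) V ∧ r = (U + Multiset.replicate k d, V) := by
    intro r hr
    obtain ⟨r0, hr0, rfl⟩ := Finset.mem_image.1 hr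
    obtain ⟨h1, h2⟩ := hP.ov r0 hr0
    by_cases h : r0.2.count d ≤ r0.1.count d
    · refine ⟨f r0.1, f r0.2, r0.1.count d - r0.2.count d, B1_over h1 d, B1_over h2 d, ?_⟩
      rw [hL]; simp only; rw [if_pos h]
    · refine ⟨f r0.2, f r0.1, r0.2.count d - r0.1.count d, B1_over h2 d, B1_over h1 d, ?_⟩
      rw [hL]; simp only; rw [if_neg h]
  -- every relation of R follows
  have hconn : ∀ r ∈ R, Conn (R.image L) r.1 r.2 := by
    intro r hr
    have hm : L r ∈ R.image L := Finset.mem_image_of_mem _ hr
    have e1 := B1_split d r.1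
    have e2 := B1_split d r.2
    by_cases h : r.2.count d ≤ r.1.count d
    · have e : L r = (f r.1 + replicate (r.1.count d - r.2.count d) d, f r.2) := by
        rw [hL]; simp only; rw [if_pos h]
      rw [e] at hm
      have h3 := (Conn.of_mem hm).add (replicate (r.2.count d) d)
      have e3 : f r.1 + replicate (r.1.count d - r.2.count d) d + replicate (r.2.count d) d
          = r.1 := by
        rw [add_assoc, ← Multiset.replicate_add, Nat.sub_add_cancel h]
        exact e1.symm
      have e4 : f r.2 + replicate (r.2.count d) d = r.2 := e2.symm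
      rw [e3, e4] at h3
      exact h3
    · have e : L r = (f r.2 + replicate (r.2.count d - r.1.count d) d, f r.1) := by
        rw [hL]; simp only; rw [if_neg h]
      rw [e] at hm
      have h3 := (Conn.of_mem hm).add (replicate (r.1.count d) d)
      have e3 : f r.2 + replicate (r.2.count d - r.1.count d) d + replicate (r.1.count d) d
          = r.2 := by
        rw [add_assoc, ← Multiset.replicate_add, Nat.sub_add_cancel (by omega)]
        exact e2.symm
      have e4 : f r.1 + replicate (r.1.count d) d = r.1 := e1.symm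
      rw [e3, e4] at h3
      exact h3.symm
  refine ⟨R.image L, ⟨?_, ?_, ?_⟩, Finset.card_image_le, hform⟩
  · intro r hr
    obtain ⟨U, V, k, hU, hV, rfl⟩ := hform r hr
    refine ⟨?_, fun a ha => hsub a (hV a ha)⟩
    intro a ha
    rcases Multiset.mem_add.1 ha with h | h
    · exact hsub a (hU a h)
    · rw [Multiset.eq_of_mem_replicate h]; exact hd
  · intro r hr
    obtain ⟨r0, hr0, rfl⟩ := Finset.mem_image.1 hr
    have hb := hP.bal r0 hr0
    have e1 := congrArg Multiset.sum (B1_split d r0.1)
    have e2 := congrArg Multiset.sum (B1_split d r0.2)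
    rw [Multiset.sum_add, Multiset.sum_replicate, smul_eq_mul] at e1 e2
    by_cases h : r0.2.count d ≤ r0.1.count d
    · rw [hL]; simp only; rw [if_pos h]
      simp only [Multiset.sum_add, Multiset.sum_replicate, smul_eq_mul]
      obtain ⟨c, hc⟩ := Nat.exists_eq_add_of_le h
      rw [hc] at e1 ⊢
      rw [Nat.add_sub_cancel_left]
      simp only [hf]
      nlinarith
    · rw [hL]; simp only; rw [if_neg h]
      simp only [Multiset.sum_add, Multiset.sum_replicate, smul_eq_mul]
      obtain ⟨c, hc⟩ := Nat.exists_eq_add_of_le (le_of_not_ge h)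
      rw [hc] at e2 ⊢
      rw [Nat.add_sub_cancel_left]
      simp only [hf]
      nlinarith
  · intro A B hA hB hs
    have h1 := hP.gen A B hA hB hs
    exact conn_map id (fun _ _ => rfl) hconn h1

end Pool.Agent.LibTP76
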