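import Pool.Agent.LibTP76.A1
import Pool.Agent.LibTP76.A2
import Pool.Agent.LibTP76.B1

/-!
Exchange: a presentation of `plus S d` all of whose relations involve `d` with a multiplicity in
the semigroup generated by `q` and `p`.
-/

set_option autoImplicit false

namespace Pool.Agent.LibTP76

open Multiset

theorem B2_over_add {G : Finset ℕ} {A B : Multiset ℕ} :
    Over G (A + B) ↔ Over G A ∧ Over G B := by
  unfold Over
  constructor
  · intro h
    exact ⟨fun a ha => h a (Multiset.mem_add.mpr (Or.inl ha)),
      fun a ha => h a (Multiset.mem_add.mpr (Or.inr ha))⟩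
  · rintro ⟨h1, h2⟩ a ha
    rcases Multiset.mem_add.mp ha with h | h
    · exact h1 a h
    · exact h2 a h

theorem B2_over_rep {G : Finset ℕ} {a : ℕ} (ha : a ∈ G) (k : ℕ) :
    Over G (replicate k a) := by
  intro b hb
  rw [Multiset.eq_of_mem_replicate hb]; exact ha

theorem B2_over_mono {G G' : Finset ℕ} (h : ∀ a ∈ G, a ∈ G') {A : Multiset ℕ} (hA : Over G A) :
    Over G' A := fun a ha => h a (hA a ha)

theorem exchange {S : AddSubmonoid ℕ} {d p q : ℕ} (hG : Glu S d p q) (G : Finset ℕ)
    (R : Finset (Multiset ℕ × Multiset ℕ)) (hat : ∀ g, g ∈ G ↔ Atom (plus S d) g)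
    (hpos : ∀ g ∈ G, 0 < g) (hcl : AddSubmonoid.closure (G : Set ℕ) = plus S d)
    (hP : Pres G R) :
    ∃ R' : Finset (Multiset ℕ × Multiset ℕ), Pres G R' ∧ R'.card ≤ R.card ∧
      ∀ r ∈ R', ∃ (U V : Multiset ℕ) (u v : ℕ), Over (G.erase d) U ∧ Over (G.erase d) V ∧
        r = (U + Multiset.replicate (u * q + v * p) d, V) := by
  classical
  have hd := hG.d0
  have hdG : d ∈ G := (hat d).2 (atom_d S d hd hG.dS)
  have hlowG : ∀ g ∈ G.erase d, Low S d g := by
    intro g hg
    rw [Finset.mem_erase] at hg
    exact low_of_atom S d g hd ((hat g).1 hg.2) hg.1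
  have hsub : ∀ a ∈ G.erase d, a ∈ G := fun a ha => Finset.mem_of_mem_erase ha
  have sumS : ∀ U : Multiset ℕ, Over (G.erase d) U → U.sum ∈ S := by
    intro U hU
    exact AddSubmonoid.multiset_sum_mem _ _ (fun a ha => (hlowG a (hU a ha)).1)
  have hH : ∀ s : ℕ, ∃ M : Multiset ℕ, Low S d s → Over (G.erase d) M ∧ M.sum = s := by
    intro s
    by_cases hs : Low S d s
    · have h1 : s ∈ AddSubmonoid.closure (G : Set ℕ) := by
        rw [hcl, mem_plus]
        exact ⟨s, hs.1, 0, by simp⟩
      obtain ⟨M, hM, hMs⟩ := exists_multiset G s h1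
      refine ⟨M, fun _ => ⟨?_, hMs⟩⟩
      have h2 : d ∉ M := not_mem_of_low S d s hd hs M
        (fun a ha => ((hat a).1 (hM a ha)).1) hMs
      intro a ha
      rw [Finset.mem_erase]
      exact ⟨fun h => h2 (h ▸ ha), hM a ha⟩
    · exact ⟨0, fun h => absurd h hs⟩
  choose H hHs using hH
  have hk : ∀ t ∈ S, ∀ t' ∈ S, ∀ k : ℕ, t = t' + k * d →
      low S d t = low S d t' ∧ kk S d t = kk S d t' + k := by
    intro t ht t' ht' k hk
    have h1 : low S d t = low S d t' := by
      apply low_congr
      rw [hk, Nat.ModEq, Nat.add_mul_mod_self_right]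
    refine ⟨h1, ?_⟩
    have h2 := kk_spec S d t hd ht
    have h3 := kk_spec S d t' hd ht'
    rw [h1] at h2
    have h4 : kk S d t * d = (kk S d t' + k) * d := by nlinarith
    exact Nat.eq_of_mul_eq_mul_right hd h4
  obtain ⟨R1, hP1, hc1, hform1⟩ := cancel_rel G R hP d hdG
  choose! FU FV fk hfo using hform1
  set N : ℕ → Multiset ℕ := fun t => H (low S d t) + replicate (kk S d t) d with hN
  have hNov : ∀ t ∈ S, Over G (N t) := by
    intro t ht
    exact B2_over_add.2 ⟨B2_over_mono hsub (hHs _ (low_spec S d t ht).1).1, B2_over_rep hdG _⟩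
  have hNsum : ∀ t ∈ S, (N t).sum = t := by
    intro t ht
    rw [hN]
    simp only
    rw [Multiset.sum_add, Multiset.sum_replicate, (hHs _ (low_spec S d t ht).1).2, smul_eq_mul]
    exact (kk_spec S d t hd ht).symm
  set L : Multiset ℕ × Multiset ℕ → Multiset ℕ × Multiset ℕ := fun r =>
    if ∃ u v : ℕ, fk r = u * q + v * p then r else (N (FV r).sum, FV r) with hL
  have hL1 : ∀ r, (∃ u v : ℕ, fk r = u * q + v * p) → L r = r := by
    intro r h; rw [hL]; simp only; rw [if_pos h]
  have hL2 : ∀ r, (¬ ∃ u v : ℕ, fk r = u * q + v * p) → L r = (N (FV r).sum, FV r) := by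
    intro r h; rw [hL]; simp only; rw [if_neg h]
  set R' := R1.image L with hR'
  have hmem : ∀ r ∈ R1, L r ∈ R' := fun r hr => Finset.mem_image_of_mem _ hr
  have hov' : ∀ r ∈ R', Over G r.1 ∧ Over G r.2 := by
    intro r hr
    obtain ⟨r0, hr0, rfl⟩ := Finset.mem_image.1 hr
    obtain ⟨h1, h2, h3⟩ := hfo _ hr0
    by_cases h : ∃ u v : ℕ, fk r0 = u * q + v * p
    · rw [hL1 r0 h]; exact hP1.ov r0 hr0
    · rw [hL2 r0 h]
      exact ⟨hNov _ (sumS _ h2), B2_over_mono hsub h2⟩
  have hbal' : ∀ r ∈ R', r.1.sum = r.2.sum := by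
    intro r hr
    obtain ⟨r0, hr0, rfl⟩ := Finset.mem_image.1 hr
    obtain ⟨h1, h2, h3⟩ := hfo _ hr0
    by_cases h : ∃ u v : ℕ, fk r0 = u * q + v * p
    · rw [hL1 r0 h]; exact hP1.bal r0 hr0
    · rw [hL2 r0 h]
      exact hNsum _ (sumS _ h2)
  have main : ∀ n : ℕ, ∀ A B : Multiset ℕ, Over G A → Over G B → A.sum = n → B.sum = n →
      Conn R' A B := by
    intro n
    induction n using Nat.strong_induction_on with
    | _ n IH =>
      have step : ∀ r ∈ R1, ∀ C : Multiset ℕ, Over G C → r.1.sum + C.sum = n →
          Conn R' (r.1 + C) (r.2 + C) := by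
        intro r hr C hC hn
        obtain ⟨h1, h2, h3⟩ := hfo _ hr
        by_cases h : ∃ u v : ℕ, fk r = u * q + v * p
        · have h4 := hmem r hr
          rw [hL1 r h] at h4
          exact (Conn.of_mem (U := r.1) (V := r.2) h4).add C
        · by_cases hC0 : C = 0
          · subst hC0
            have h4 := hmem r hr
            rw [hL2 r h] at h4
            have hkpos : 0 < fk r := by
              rcases Nat.eq_zero_or_pos (fk r) with h0 | h0
              · exact absurd ⟨0, 0, by simp [h0]⟩ h
              · exact h0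
            have e1 : r.1 = FU r + replicate (fk r) d := congrArg Prod.fst h3
            have e2 : r.2 = FV r := congrArg Prod.snd h3
            have hUS := sumS _ h1
            have hVS := sumS _ h2
            have hb := hP1.bal r hr
            rw [e1, e2, Multiset.sum_add, Multiset.sum_replicate, smul_eq_mul] at hb
            obtain ⟨hk1, hk2⟩ := hk _ hVS _ hUS (fk r) hb.symm
            have hlt : (FU r).sum < n := by
              have h5 : 0 < fk r * d := Nat.mul_pos hkpos hd
              have h6 : r.1.sum = (FU r).sum + fk r * d := by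
                rw [e1, Multiset.sum_add, Multiset.sum_replicate, smul_eq_mul]
              have h7 : (0 : Multiset ℕ).sum = 0 := Multiset.sum_zero
              omega
            have h5 := (IH _ hlt (FU r) (N (FU r).sum) (B2_over_mono hsub h1) (hNov _ hUS) rfl
              (hNsum _ hUS)).add (replicate (fk r) d)
            have h6 : N (FU r).sum + replicate (fk r) d = N (FV r).sum := by
              rw [hN]
              simp only
              rw [hk1, hk2, Multiset.replicate_add, add_assoc]
            rw [h6] at h5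
            rw [add_zero, add_zero, e1, e2]
            exact h5.trans (Conn.of_mem h4)
          · have hCpos : 0 < C.sum := by
              obtain ⟨a, ha⟩ := Multiset.exists_mem_of_ne_zero hC0
              have h5 := hpos a (hC a ha)
              have h6 : a ≤ C.sum := Multiset.single_le_sum (fun x _ => Nat.zero_le x) a ha
              omega
            have hov := hP1.ov r hr
            exact (IH r.1.sum (by omega) r.1 r.2 hov.1 hov.2 rfl (hP1.bal r hr).symm).add C
      intro A B hA hB hAn hBn
      have hchain : Conn R1 A B := hP1.gen A B hA hB (by rw [hAn, hBn])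
      induction hchain using Relation.ReflTransGen.head_induction_on with
      | refl => exact Conn.refl _ _
      | head hstep hB' ih =>
        rename_i A A'
        have hA' : Over G A' := SStep.over hP1.ov hstep hA
        have hA'n : A'.sum = n := by rw [← SStep.sum_eq hP1.bal hstep, hAn]
        refine Conn.trans ?_ (ih hA' hA'n)
        obtain ⟨U0, V0, C, hm, hAe, hBe⟩ := hstep
        have hCov : Over G C := (B2_over_add.1 (hAe ▸ hA)).2
        rcases hm with hm | hm
        · have := step _ hm C hCov (by rw [← hAn, hAe, Multiset.sum_add])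
          rw [hAe, hBe]; exact this
        · have := step _ hm C hCov (by
            simp only
            rw [← hA'n, hBe, Multiset.sum_add])
          rw [hAe, hBe]; exact this.symm
  refine ⟨R', ⟨hov', hbal', fun A B hA hB hs => main A.sum A B hA hB rfl hs.symm⟩, ?_, ?_⟩
  · exact le_trans Finset.card_image_le hc1
  · intro r hr
    obtain ⟨r0, hr0, rfl⟩ := Finset.mem_image.1 hr
    obtain ⟨h1, h2, h3⟩ := hfo _ hr0
    by_cases h : ∃ u v : ℕ, fk r0 = u * q + v * p
    · rw [hL1 r0 h]
      obtain ⟨u, v, huv⟩ := h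
      exact ⟨FU r0, FV r0, u, v, h1, h2, by rw [← huv]; exact h3⟩
    · rw [hL2 r0 h]
      have hVS := sumS _ h2
      obtain ⟨u, v, huv⟩ := kk_form hG _ hVS
      exact ⟨H (low S d (FV r0).sum), FV r0, u, v, (hHs _ (low_spec S d _ hVS).1).1, h2,
        by rw [← huv]⟩

end Pool.Agent.LibTP76
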