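import Pool.Agent.LibTP76.Defs

/-!
Basic facts on `Conn`.
-/

set_option autoImplicit false

namespace Pool.Agent.LibTP76

theorem SStep.symm {R : Finset (Multiset ℕ × Multiset ℕ)} {A B : Multiset ℕ}
    (h : SStep R A B) : SStep R B A := by
  obtain ⟨U, V, C, h1, h2, h3⟩ := h
  exact ⟨V, U, C, h1.symm, h3, h2⟩

theorem Conn.symm {R : Finset (Multiset ℕ × Multiset ℕ)} {A B : Multiset ℕ}
    (h : Conn R A B) : Conn R B A := by
  unfold Conn at h ⊢
  induction h with
  | refl => exact Relation.ReflTransGen.refl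
  | tail _ h2 ih => exact Relation.ReflTransGen.head h2.symm ih

theorem Conn.trans {R : Finset (Multiset ℕ × Multiset ℕ)} {A B C : Multiset ℕ}
    (h : Conn R A B) (h' : Conn R B C) : Conn R A C :=
  Relation.ReflTransGen.trans h h'

theorem Conn.refl (R : Finset (Multiset ℕ × Multiset ℕ)) (A : Multiset ℕ) : Conn R A A :=
  Relation.ReflTransGen.refl

theorem Conn.add {R : Finset (Multiset ℕ × Multiset ℕ)} {A B : Multiset ℕ}
    (h : Conn R A B) (C : Multiset ℕ) : Conn R (A + C) (B + C) := by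
  induction h with
  | refl => exact Relation.ReflTransGen.refl
  | tail _ h2 ih =>
    refine ih.tail ?_
    obtain ⟨U, V, D, h1, rfl, rfl⟩ := h2
    exact ⟨U, V, D + C, h1, by simp [add_assoc], by simp [add_assoc]⟩

theorem Conn.of_mem {R : Finset (Multiset ℕ × Multiset ℕ)} {U V : Multiset ℕ}
    (h : (U, V) ∈ R) : Conn R U V :=
  Relation.ReflTransGen.single ⟨U, V, 0, Or.inl h, by simp, by simp⟩

theorem SStep.over {G : Finset ℕ} {R : Finset (Multiset ℕ × Multiset ℕ)} {A B : Multiset ℕ}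
    (hov : ∀ r ∈ R, Over G r.1 ∧ Over G r.2) (h : SStep R A B) (hA : Over G A) : Over G B := by
  obtain ⟨U, V, C, h1, rfl, rfl⟩ := h
  have hV : Over G V := by
    rcases h1 with h1 | h1
    · exact (hov _ h1).2
    · exact (hov _ h1).1
  intro a ha
  rcases Multiset.mem_add.1 ha with h | h
  · exact hV a h
  · exact hA a (Multiset.mem_add.2 (Or.inr h))

theorem SStep.sum_eq {R : Finset (Multiset ℕ × Multiset ℕ)} {A B : Multiset ℕ}
    (hbal : ∀ r ∈ R, r.1.sum = r.2.sum) (h : SStep R A B) : A.sum = B.sum := by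
  obtain ⟨U, V, C, h1, rfl, rfl⟩ := h
  have : U.sum = V.sum := by
    rcases h1 with h1 | h1
    · exact hbal _ h1
    · exact (hbal _ h1).symm
  rw [Multiset.sum_add, Multiset.sum_add, this]

theorem Conn.over {G : Finset ℕ} {R : Finset (Multiset ℕ × Multiset ℕ)} {A B : Multiset ℕ}
    (hov : ∀ r ∈ R, Over G r.1 ∧ Over G r.2) (h : Conn R A B) (hA : Over G A) : Over G B := by
  induction h with
  | refl => exact hA
  | tail _ h2 ih => exact h2.over hov ih

theorem Conn.sum_eq {R : Finset (Multiset ℕ × Multiset ℕ)} {A B : Multiset ℕ}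
    (hbal : ∀ r ∈ R, r.1.sum = r.2.sum) (h : Conn R A B) : A.sum = B.sum := by
  induction h with
  | refl => rfl
  | tail _ h2 ih => rw [ih, h2.sum_eq hbal]

theorem conn_map {R R' : Finset (Multiset ℕ × Multiset ℕ)} (f : Multiset ℕ → Multiset ℕ)
    (hadd : ∀ A B, f (A + B) = f A + f B) (hR : ∀ r ∈ R, Conn R' (f r.1) (f r.2))
    {A B : Multiset ℕ} (h : Conn R A B) : Conn R' (f A) (f B) := by
  induction h with
  | refl => exact Conn.refl _ _
  | tail _ h2 ih =>
    refine ih.trans ?_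
    obtain ⟨U, V, C, h1, rfl, rfl⟩ := h2
    rw [hadd, hadd]
    refine Conn.add ?_ (f C)
    rcases h1 with h1 | h1
    · exact hR _ h1
    · exact (hR _ h1).symm

end Pool.Agent.LibTP76
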