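import Pool.Agent.LibTP76.A1
import Pool.Agent.LibTP76.A2
import Pool.Agent.LibTP76.C1

/-!
Lifting of presentations from `plus S d` to `S`.
-/

set_option autoImplicit false

namespace Pool.Agent.LibTP76

open Multiset

theorem B3_over_add {G : Finset ℕ} {A B : Multiset ℕ} :
    Over G (A + B) ↔ Over G A ∧ Over G B := by
  unfold Over
  constructor
  · intro h
    exact ⟨fun a ha => h a (Multiset.mem_add.mpr (Or.inl ha)),
      fun a ha => h a (Multiset.mem_add.mpr (Or.inr ha))⟩
  · rintro ⟨h1, h2⟩ a ha
    rcases Multiset.mem_add.mp ha with h | h
    · exact h1 a h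
    · exact h2 a h

theorem B3_over_rep {G : Finset ℕ} {a : ℕ} (ha : a ∈ G) (k : ℕ) :
    Over G (replicate k a) := by
  intro b hb
  rw [Multiset.eq_of_mem_replicate hb]; exact ha

theorem B3_over_mono {G G' : Finset ℕ} (h : ∀ a ∈ G, a ∈ G') {A : Multiset ℕ} (hA : Over G A) :
    Over G' A := fun a ha => h a (hA a ha)

theorem B3_swap (R2 : Finset (Multiset ℕ × Multiset ℕ)) (p q x y : ℕ)
    (h : (replicate p x, replicate q y) ∈ R2) (w u v : ℕ) :
    Conn R2 (replicate (u + p * w) x + replicate v y)
      (replicate u x + replicate (v + q * w) y) := by
  induction w generalizing u v with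
  | zero => simpa using Conn.refl R2 _
  | succ w ih =>
    have h1 := (Conn.of_mem h).add (replicate (u + p * w) x + replicate v y)
    have e1 : replicate p x + (replicate (u + p * w) x + replicate v y)
        = replicate (u + p * (w + 1)) x + replicate v y := by
      rw [← add_assoc, ← Multiset.replicate_add]
      congr 2
      ring
    have e2 : replicate q y + (replicate (u + p * w) x + replicate v y)
        = replicate (u + p * w) x + replicate (v + q) y := by
      rw [add_comm v q, Multiset.replicate_add q v]
      abel
    rw [e1, e2] at h1
    have h2 := ih u (v + q)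
    have e3 : v + q + q * w = v + q * (w + 1) := by ring
    rw [e3] at h2
    exact h1.trans h2

theorem B3_swap2 (R2 : Finset (Multiset ℕ × Multiset ℕ)) (p q x y : ℕ) (hp : 0 < p) (hq : 0 < q)
    (hcop : Nat.Coprime p q)
    (h : (replicate p x, replicate q y) ∈ R2) (u v u' v' : ℕ)
    (he : u * q + v * p = u' * q + v' * p) :
    Conn R2 (replicate u x + replicate v y) (replicate u' x + replicate v' y) := by
  have key : ∀ u v u' v' : ℕ, u ≤ u' → u * q + v * p = u' * q + v' * p →
      Conn R2 (replicate u' x + replicate v' y) (replicate u x + replicate v y) := by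
    intro u v u' v' hle he
    obtain ⟨c, rfl⟩ := Nat.exists_eq_add_of_le hle
    have h1 : v * p = c * q + v' * p := by nlinarith
    have h2 : v' ≤ v := by
      by_contra hlt
      push Not at hlt
      have := Nat.mul_lt_mul_of_pos_right hlt hp
      omega
    obtain ⟨e, rfl⟩ := Nat.exists_eq_add_of_le h2
    have h3 : e * p = c * q := by nlinarith
    have h4 : p ∣ c * q := ⟨e, by rw [← h3]; ring⟩
    have h5 : p ∣ c := hcop.dvd_of_dvd_mul_right h4
    obtain ⟨w, rfl⟩ := h5
    have h6 : e = q * w := by
      have : e * p = (q * w) * p := by rw [h3]; ring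
      exact Nat.eq_of_mul_eq_mul_right hp this
    subst h6
    exact B3_swap R2 p q x y h w u v'
  rcases le_total u u' with hle | hle
  · exact (key u v u' v' hle he).symm
  · exact key u' v' u v hle he.symm

theorem B3_decomp (G0 : Finset ℕ) (x y : ℕ) (A : Multiset ℕ)
    (hA : Over (insert x (insert y G0)) A) :
    ∃ (U : Multiset ℕ) (u v : ℕ), Over G0 U ∧ A = U + replicate u x + replicate v y := by
  induction A using Multiset.induction_on with
  | empty => exact ⟨0, 0, 0, by intro a ha; simp at ha, by simp⟩
  | cons a A ih =>
    obtain ⟨U, u, v, hU, rfl⟩ := ih (fun b hb => hA b (Multiset.mem_cons_of_mem hb))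
    have ha := hA a (Multiset.mem_cons_self _ _)
    rw [Finset.mem_insert, Finset.mem_insert] at ha
    rcases ha with rfl | rfl | ha
    · refine ⟨U, u + 1, v, hU, ?_⟩
      rw [Multiset.replicate_succ, Multiset.add_cons, Multiset.cons_add]
    · refine ⟨U, u, v + 1, hU, ?_⟩
      rw [Multiset.replicate_succ, Multiset.add_cons]
    · refine ⟨a ::ₘ U, u, v, ?_, ?_⟩
      · intro b hb
        rcases Multiset.mem_cons.mp hb with rfl | hb
        · exact ha
        · exact hU b hb
      · rw [Multiset.cons_add, Multiset.cons_add]

theorem B3_sum3 (U : Multiset ℕ) (u v x y : ℕ) :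
    (U + replicate u x + replicate v y).sum = U.sum + u * x + v * y := by
  simp [Multiset.sum_add, Multiset.sum_replicate]

theorem lift_ci {S : AddSubmonoid ℕ} {d p q : ℕ} (hG : Glu S d p q) (G : Finset ℕ)
    (R' : Finset (Multiset ℕ × Multiset ℕ)) (hat : ∀ g, g ∈ G ↔ Atom (plus S d) g)
    (hpos : ∀ g ∈ G, 0 < g) (hcl : AddSubmonoid.closure (G : Set ℕ) = plus S d)
    (hP : Pres G R') (hc : R'.card + 1 ≤ G.card)
    (hform : ∀ r ∈ R', ∃ (U V : Multiset ℕ) (u v : ℕ), Over (G.erase d) U ∧ Over (G.erase d) V ∧
        r = (U + Multiset.replicate (u * q + v * p) d, V)) :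
    CI S := by
  classical
  have hd := hG.d0
  have hp0 : 0 < p := lt_trans one_pos hG.p1
  have hq0 : 0 < q := lt_trans one_pos hG.q1
  set x := d * q with hx
  set y := d * p with hy
  have hx0 : 0 < x := Nat.mul_pos hd hq0
  have hy0 : 0 < y := Nat.mul_pos hd hp0
  have hdG : d ∈ G := (hat d).2 (atom_d S d hd hG.dS)
  have hlowG : ∀ g ∈ G.erase d, Low S d g := by
    intro g hg
    rw [Finset.mem_erase] at hg
    exact low_of_atom S d g hd ((hat g).1 hg.2) hg.1
  have hGS : ∀ g ∈ G.erase d, g ∈ S := fun g hg => (hlowG g hg).1
  have hsub : ∀ a ∈ G.erase d, a ∈ G := fun a ha => Finset.mem_of_mem_erase ha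
  have hnot : ∀ c : ℕ, 0 < c → d * c ∉ G.erase d := by
    intro c hc hmem
    have h1 := (hlowG _ hmem).2 0 S.zero_mem
      (by
        rw [Nat.ModEq, Nat.zero_mod, Nat.mul_mod_right])
    have : 0 < d * c := Nat.mul_pos hd hc
    omega
  have hxG : x ∉ G.erase d := hnot q hq0
  have hyG : y ∉ G.erase d := hnot p hp0
  have hpq : p ≠ q := by
    intro h
    have h1 := hG.cop
    rw [h, Nat.coprime_self] at h1
    have := hG.q1
    omega
  have hxy : x ≠ y := by
    intro h
    exact hpq (Nat.eq_of_mul_eq_mul_left hd h).symm
  have sumS : ∀ U : Multiset ℕ, Over (G.erase d) U → U.sum ∈ S := by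
    intro U hU
    exact AddSubmonoid.multiset_sum_mem _ _ (fun a ha => hGS a (hU a ha))
  have hH : ∀ s : ℕ, ∃ M : Multiset ℕ, Low S d s → Over (G.erase d) M ∧ M.sum = s := by
    intro s
    by_cases hs : Low S d s
    · have h1 : s ∈ AddSubmonoid.closure (G : Set ℕ) := by
        rw [hcl, mem_plus]
        exact ⟨s, hs.1, 0, by simp⟩
      obtain ⟨M, hM, hMs⟩ := exists_multiset G s h1
      refine ⟨M, fun _ => ⟨?_, hMs⟩⟩
      have h2 : d ∉ M := not_mem_of_low S d s hd hs M
        (fun a ha => ((hat a).1 (hM a ha)).1) hMs
      intro a ha
      rw [Finset.mem_erase]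
      exact ⟨fun h => h2 (h ▸ ha), hM a ha⟩
    · exact ⟨0, fun h => absurd h hs⟩
  choose H hHs using hH
  choose! FU FV fu fv hfo using hform
  set L : Multiset ℕ × Multiset ℕ → Multiset ℕ × Multiset ℕ :=
    fun r => (FU r + replicate (fu r) x + replicate (fv r) y, FV r) with hL
  set R2 : Finset (Multiset ℕ × Multiset ℕ) :=
    insert (replicate p x, replicate q y) (R'.image L) with hR2
  have hLmem : ∀ r ∈ R', L r ∈ R2 := by
    intro r hr
    rw [hR2]
    exact Finset.mem_insert_of_mem (Finset.mem_image_of_mem _ hr)
  have hpqmem : (replicate p x, replicate q y) ∈ R2 := Finset.mem_insert_self _ _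
  -- facts on low and kk
  have hk : ∀ t ∈ S, ∀ t' ∈ S, ∀ k : ℕ, t = t' + k * d →
      low S d t = low S d t' ∧ kk S d t = kk S d t' + k := by
    intro t ht t' ht' k hk
    have h1 : low S d t = low S d t' := by
      apply low_congr
      rw [hk, Nat.ModEq, Nat.add_mul_mod_self_right]
    refine ⟨h1, ?_⟩
    have h2 := kk_spec S d t hd ht
    have h3 := kk_spec S d t' hd ht'
    rw [h1] at h2
    have h4 : kk S d t * d = (kk S d t' + k) * d := by nlinarith
    exact Nat.eq_of_mul_eq_mul_right hd h4
  -- main claim
  have main : ∀ n : ℕ, ∀ U : Multiset ℕ, Over (G.erase d) U → U.sum = n → ∀ u v : ℕ,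
      u * q + v * p = kk S d n →
      Conn R2 U (H (low S d n) + replicate u x + replicate v y) := by
    intro n
    induction n using Nat.strong_induction_on with
    | _ n IH =>
      intro U hU hUn
      have hnS : n ∈ S := hUn ▸ sumS U hU
      have hlow := (low_spec S d n hnS).1
      obtain ⟨hH1, hH2⟩ := hHs _ hlow
      set T := H (low S d n) + replicate (kk S d n) d with hT
      have hTsum : T.sum = n := by
        rw [hT, Multiset.sum_add, Multiset.sum_replicate, hH2, smul_eq_mul]
        exact (kk_spec S d n hd hnS).symm
      have hTov : Over G T := B3_over_add.2 ⟨B3_over_mono hsub hH1, B3_over_rep hdG _⟩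
      have hchain : Conn R' U T := hP.gen U T (B3_over_mono hsub hU) hTov (by rw [hUn, hTsum])
      have claim : ∀ A : Multiset ℕ, Conn R' A T → Over (G.erase d) A → ∀ u v : ℕ,
          u * q + v * p = kk S d n →
          Conn R2 A (H (low S d n) + replicate u x + replicate v y) := by
        intro A hA
        induction hA using Relation.ReflTransGen.head_induction_on with
        | refl =>
          intro hA u v huv
          have h0 : kk S d n = 0 := by
            by_contra hne
            have h1 : d ∈ T := by
              rw [hT]
              exact Multiset.mem_add.2 (Or.inr (Multiset.mem_replicate.2 ⟨hne, rfl⟩))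
            exact absurd (hA d h1) (Finset.notMem_erase d G)
          rw [h0] at huv
          have hu : u = 0 := by
            rcases Nat.eq_zero_of_add_eq_zero_right huv with h
            rcases Nat.mul_eq_zero.1 h with h | h
            · exact h
            · omega
          have hv : v = 0 := by
            rcases Nat.eq_zero_of_add_eq_zero_left huv with h
            rcases Nat.mul_eq_zero.1 h with h | h
            · exact h
            · omega
          rw [hT, h0, hu, hv]
          simpa using Conn.refl R2 _
        | head hstep hB ih =>
          rename_i A B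
          intro hA u v huv
          have hAn : A.sum = n := by
            rw [← hTsum]
            exact Conn.sum_eq hP.bal (Relation.ReflTransGen.head hstep hB)
          obtain ⟨U0, V0, C, hmem, hAe, hBe⟩ := hstep
          have hCov : Over (G.erase d) C := (B3_over_add.1 (hAe ▸ hA)).2
          rcases hmem with hmem | hmem
          · obtain ⟨h1, h2, h3⟩ := hfo _ hmem
            have hU0 : U0 = FU (U0, V0) + replicate (fu (U0, V0) * q + fv (U0, V0) * p) d :=
              congrArg Prod.fst h3
            have hV0 : V0 = FV (U0, V0) := congrArg Prod.snd h3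
            have hk0 : fu (U0, V0) * q + fv (U0, V0) * p = 0 := by
              by_contra hne
              have h4 : d ∈ A := by
                rw [hAe, hU0]
                exact Multiset.mem_add.2 (Or.inl (Multiset.mem_add.2
                  (Or.inr (Multiset.mem_replicate.2 ⟨hne, rfl⟩))))
              exact absurd (hA d h4) (Finset.notMem_erase d G)
            have hfu : fu (U0, V0) = 0 := by
              rcases Nat.mul_eq_zero.1 (Nat.eq_zero_of_add_eq_zero_right hk0) with h | h
              · exact h
              · omega
            have hfv : fv (U0, V0) = 0 := by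
              rcases Nat.mul_eq_zero.1 (Nat.eq_zero_of_add_eq_zero_left hk0) with h | h
              · exact h
              · omega
            have hL' : L (U0, V0) = (U0, V0) := by
              rw [hL]
              simp only
              rw [hfu, hfv, ← hV0]
              rw [hk0] at hU0
              simp only [Multiset.replicate_zero, add_zero] at hU0 ⊢
              rw [← hU0]
            have hm2 : (U0, V0) ∈ R2 := hL' ▸ hLmem _ hmem
            have hBov : Over (G.erase d) B := by
              rw [hBe]
              exact B3_over_add.2 ⟨hV0 ▸ h2, hCov⟩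
            have hc1 : Conn R2 A B := by
              rw [hAe, hBe]
              exact (Conn.of_mem hm2).add C
            exact hc1.trans (ih hBov u v huv)
          · obtain ⟨h1, h2, h3⟩ := hfo _ hmem
            have hV0 : V0 = FU (V0, U0) + replicate (fu (V0, U0) * q + fv (V0, U0) * p) d :=
              congrArg Prod.fst h3
            have hU0 : U0 = FV (V0, U0) := congrArg Prod.snd h3
            have hc1 : Conn R2 U0 (FU (V0, U0) + replicate (fu (V0, U0)) x
                + replicate (fv (V0, U0)) y) := by
              have h4 := (Conn.of_mem (hLmem _ hmem)).symm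
              rw [← hU0] at h4
              exact h4
            by_cases hk0 : fu (V0, U0) * q + fv (V0, U0) * p = 0
            · have hfu : fu (V0, U0) = 0 := by
                rcases Nat.mul_eq_zero.1 (Nat.eq_zero_of_add_eq_zero_right hk0) with h | h
                · exact h
                · omega
              have hfv : fv (V0, U0) = 0 := by
                rcases Nat.mul_eq_zero.1 (Nat.eq_zero_of_add_eq_zero_left hk0) with h | h
                · exact h
                · omega
              have hV0' : V0 = FU (V0, U0) := by
                rw [hk0] at hV0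
                simpa using hV0
              rw [hfu, hfv] at hc1
              simp only [Multiset.replicate_zero, add_zero] at hc1
              rw [← hV0'] at hc1
              have hBov : Over (G.erase d) B := by
                rw [hBe]
                exact B3_over_add.2 ⟨hV0' ▸ h1, hCov⟩
              have hc2 : Conn R2 A B := by
                rw [hAe, hBe]
                exact hc1.add C
              exact hc2.trans (ih hBov u v huv)
            · set k := fu (V0, U0) * q + fv (V0, U0) * p with hkdef
              set E := FU (V0, U0) + C with hE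
              have hEov : Over (G.erase d) E := B3_over_add.2 ⟨h1, hCov⟩
              have hbal := hP.bal _ hmem
              simp only at hbal
              have hEsum : n = E.sum + k * d := by
                rw [← hAn, hAe, Multiset.sum_add, ← hbal, hV0, Multiset.sum_add,
                  Multiset.sum_replicate, smul_eq_mul, hE, Multiset.sum_add]
                ring
              have hES : E.sum ∈ S := sumS E hEov
              have hlt : E.sum < n := by
                have : 0 < k * d := Nat.mul_pos (Nat.pos_of_ne_zero hk0) hd
                omega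
              obtain ⟨hk1, hk2⟩ := hk n hnS E.sum hES k hEsum
              obtain ⟨u1, v1, huv1⟩ := kk_form hG E.sum hES
              have hc3 := IH E.sum hlt E hEov rfl u1 v1 huv1.symm
              rw [← hk1] at hc3
              have hc4 : Conn R2 A (E + (replicate (fu (V0, U0)) x
                  + replicate (fv (V0, U0)) y)) := by
                rw [hAe, hE]
                have := hc1.add C
                refine this.trans ?_
                have e1 : FU (V0, U0) + replicate (fu (V0, U0)) x + replicate (fv (V0, U0)) y + C
                    = FU (V0, U0) + C + (replicate (fu (V0, U0)) x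
                      + replicate (fv (V0, U0)) y) := by abel
                rw [e1]
                exact Conn.refl _ _
              have hc5 := hc3.add (replicate (fu (V0, U0)) x + replicate (fv (V0, U0)) y)
              have e2 : H (low S d n) + replicate u1 x + replicate v1 y
                  + (replicate (fu (V0, U0)) x + replicate (fv (V0, U0)) y)
                  = (replicate (u1 + fu (V0, U0)) x + replicate (v1 + fv (V0, U0)) y)
                    + H (low S d n) := by
                rw [Multiset.replicate_add, Multiset.replicate_add]
                abel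
              rw [e2] at hc5
              have hc6 := (B3_swap2 R2 p q x y hp0 hq0 hG.cop hpqmem (u1 + fu (V0, U0))
                (v1 + fv (V0, U0)) u v (by
                  rw [huv, hk2, huv1, hkdef]; ring)).add (H (low S d n))
              have e3 : replicate u x + replicate v y + H (low S d n)
                  = H (low S d n) + replicate u x + replicate v y := by abel
              rw [e3] at hc6
              exact hc4.trans (hc5.trans hc6)
      exact claim U hchain hU
  -- normal forms over the new generating set
  have norm : ∀ A : Multiset ℕ, Over (insert x (insert y (G.erase d))) A →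
      A.sum ∈ S ∧ ∃ u v : ℕ, u * q + v * p = kk S d A.sum ∧
        Conn R2 A (H (low S d A.sum) + replicate u x + replicate v y) := by
    intro A hA
    obtain ⟨U, u, v, hU, rfl⟩ := B3_decomp _ _ _ A hA
    have hUS := sumS U hU
    have hAS : (U + replicate u x + replicate v y).sum ∈ S := by
      rw [B3_sum3]
      refine S.add_mem (S.add_mem hUS ?_) ?_
      · have := S.nsmul_mem hG.xS u
        simpa [hx] using this
      · have := S.nsmul_mem hG.yS v
        simpa [hy] using this
    refine ⟨hAS, ?_⟩
    obtain ⟨u1, v1, huv1⟩ := kk_form hG U.sum hUS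
    obtain ⟨hk1, hk2⟩ := hk _ hAS U.sum hUS (u * q + v * p) (by
      rw [B3_sum3, hx, hy]; ring)
    refine ⟨u1 + u, v1 + v, ?_, ?_⟩
    · rw [hk2, huv1]; ring
    · rw [hk1]
      have h1 := (main U.sum U hU rfl u1 v1 huv1.symm).add (replicate u x + replicate v y)
      have e1 : U + (replicate u x + replicate v y) = U + replicate u x + replicate v y := by
        abel
      have e2 : H (low S d U.sum) + replicate u1 x + replicate v1 y
          + (replicate u x + replicate v y)
          = H (low S d U.sum) + replicate (u1 + u) x + replicate (v1 + v) y := by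
        rw [Multiset.replicate_add, Multiset.replicate_add]
        abel
      rw [e1, e2] at h1
      exact h1
  refine ⟨insert x (insert y (G.erase d)), R2, ?_, ?_, ⟨?_, ?_, ?_⟩, ?_⟩
  · intro g hg
    rw [Finset.mem_insert, Finset.mem_insert] at hg
    rcases hg with rfl | rfl | hg
    · exact hx0
    · exact hy0
    · exact hpos g (hsub g hg)
  · apply le_antisymm
    · rw [AddSubmonoid.closure_le]
      intro g hg
      rw [Finset.mem_coe, Finset.mem_insert, Finset.mem_insert] at hg
      rcases hg with rfl | rfl | hg
      · exact hG.xS
      · exact hG.yS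
      · exact hGS g hg
    · intro t ht
      obtain ⟨s, u, v, hs, hte⟩ := hG.cls t ht
      obtain ⟨h1, h2⟩ := hHs s hs
      have hxc : x ∈ AddSubmonoid.closure
          ((insert x (insert y (G.erase d)) : Finset ℕ) : Set ℕ) :=
        AddSubmonoid.subset_closure (by simp)
      have hyc : y ∈ AddSubmonoid.closure
          ((insert x (insert y (G.erase d)) : Finset ℕ) : Set ℕ) :=
        AddSubmonoid.subset_closure (by simp)
      rw [hte]
      refine AddSubmonoid.add_mem _ (AddSubmonoid.add_mem _ ?_ ?_) ?_
      · rw [← h2]
        refine AddSubmonoid.multiset_sum_mem _ _ (fun a ha => ?_)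
        apply AddSubmonoid.subset_closure
        have := h1 a ha
        rw [Finset.mem_coe]
        exact Finset.mem_insert_of_mem (Finset.mem_insert_of_mem this)
      · have := AddSubmonoid.nsmul_mem _ hxc u
        simpa [hx] using this
      · have := AddSubmonoid.nsmul_mem _ hyc v
        simpa [hy] using this
  · intro r hr
    have hxm : x ∈ insert x (insert y (G.erase d)) := Finset.mem_insert_self _ _
    have hym : y ∈ insert x (insert y (G.erase d)) :=
      Finset.mem_insert_of_mem (Finset.mem_insert_self _ _)
    have hsub2 : ∀ a ∈ G.erase d, a ∈ insert x (insert y (G.erase d)) := fun a ha =>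
      Finset.mem_insert_of_mem (Finset.mem_insert_of_mem ha)
    rw [hR2, Finset.mem_insert] at hr
    rcases hr with rfl | hr
    · exact ⟨B3_over_rep hxm _, B3_over_rep hym _⟩
    · obtain ⟨r', hr', rfl⟩ := Finset.mem_image.1 hr
      obtain ⟨h1, h2, h3⟩ := hfo _ hr'
      refine ⟨?_, B3_over_mono hsub2 h2⟩
      exact B3_over_add.2 ⟨B3_over_add.2 ⟨B3_over_mono hsub2 h1, B3_over_rep hxm _⟩,
        B3_over_rep hym _⟩
  · intro r hr
    rw [hR2, Finset.mem_insert] at hr
    rcases hr with rfl | hr
    · simp only [Multiset.sum_replicate, smul_eq_mul, hx, hy]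
      ring
    · obtain ⟨r', hr', rfl⟩ := Finset.mem_image.1 hr
      obtain ⟨h1, h2, h3⟩ := hfo _ hr'
      have h4 := hP.bal _ hr'
      rw [h3] at h4
      simp only [Multiset.sum_add, Multiset.sum_replicate, smul_eq_mul] at h4
      simp only [hL]
      rw [B3_sum3, ← h4, hx, hy]
      ring
  · intro A B hA hB hs
    obtain ⟨_, u, v, huv, hc1⟩ := norm A hA
    obtain ⟨_, u', v', huv', hc2⟩ := norm B hB
    rw [← hs] at hc2 huv'
    have hc3 := (B3_swap2 R2 p q x y hp0 hq0 hG.cop hpqmem u v u' v'
      (by rw [huv, huv'])).add (H (low S d A.sum))
    have e1 : ∀ a b : ℕ, replicate a x + replicate b y + H (low S d A.sum)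
        = H (low S d A.sum) + replicate a x + replicate b y := by
      intro a b; abel
    rw [e1, e1] at hc3
    exact hc1.trans (hc3.trans hc2.symm)
  · have h1 : (insert x (insert y (G.erase d))).card = G.card + 1 := by
      rw [Finset.card_insert_of_notMem, Finset.card_insert_of_notMem hyG,
        Finset.card_erase_of_mem hdG]
      · have : 0 < G.card := Finset.card_pos.2 ⟨d, hdG⟩
        omega
      · rw [Finset.mem_insert]
        rintro (h | h)
        · exact hxy h
        · exact hxG h
    have h2 : R2.card ≤ R'.card + 1 := by
      rw [hR2]
      exact le_trans (Finset.card_insert_le _ _)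
        (Nat.succ_le_succ Finset.card_image_le)
    omega

end Pool.Agent.LibTP76
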