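import Pool.Agent.LibTP76.Defs

/-!
ROW D1: `(X ^ (d q) - 1) (X ^ (d p) - 1) Φ_{d p q} = (X ^ d - 1) (X ^ (d p q) - 1)` if all prime
factors of `d` are `p` or `q`.

`∏_{k ∣ n} Φ_k = X ^ n - 1`. The divisors of `n = d p q` are: `n`, and the divisors of `d q` or of
`d p` (a divisor `k ≠ n` of `n` misses a prime `r` of `n / k`, `r = p` or `q`, so `k ∣ n / r`);
`divisors (d q) ∩ divisors (d p) = divisors d` (gcd is `d`); `Finset.prod_union_inter`.
-/

set_option autoImplicit false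

namespace Pool.Agent.LibTP76

open Polynomial

theorem D1_union (d p q : ℕ) (hd : 0 < d) (hp : p.Prime) (hq : q.Prime)
    (hr : ∀ r : ℕ, r.Prime → r ∣ d → r = p ∨ r = q) :
    (d * q).divisors ∪ (d * p).divisors = (d * p * q).divisors.erase (d * p * q) := by
  have hp0 := hp.pos
  have hq0 := hq.pos
  have hp1 := hp.one_lt
  have hq1 := hq.one_lt
  have hdp : 0 < d * p := Nat.mul_pos hd hp0
  have hdq : 0 < d * q := Nat.mul_pos hd hq0
  have hn : 0 < d * p * q := Nat.mul_pos hdp hq0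
  ext k
  rw [Finset.mem_union, Finset.mem_erase, Nat.mem_divisors, Nat.mem_divisors, Nat.mem_divisors]
  constructor
  · rintro (⟨h, -⟩ | ⟨h, -⟩)
    · have hk : k ≤ d * q := Nat.le_of_dvd hdq h
      refine ⟨?_, ?_, hn.ne'⟩
      · have : d * q < d * p * q := by
          have : d * p * q = d * q * p := by ring
          rw [this]
          exact lt_mul_of_one_lt_right hdq hp1
        omega
      · exact h.trans ⟨p, by ring⟩
    · have hk : k ≤ d * p := Nat.le_of_dvd hdp h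
      refine ⟨?_, ?_, hn.ne'⟩
      · have : d * p < d * p * q := lt_mul_of_one_lt_right hdp hq1
        omega
      · exact h.trans ⟨q, rfl⟩
  · rintro ⟨hne, ⟨m, hm⟩, -⟩
    have hm1 : m ≠ 1 := by
      rintro rfl
      apply hne
      rw [hm, mul_one]
    obtain ⟨r, hrp, ⟨m', hm'⟩⟩ := Nat.exists_prime_and_dvd hm1
    have hrn : r ∣ d * p * q := ⟨k * m', by rw [hm, hm']; ring⟩
    have hrpq : r = p ∨ r = q := by
      rcases (Nat.Prime.dvd_mul hrp).1 hrn with h | h
      · rcases (Nat.Prime.dvd_mul hrp).1 h with h | h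
        · exact hr r hrp h
        · exact Or.inl ((Nat.prime_dvd_prime_iff_eq hrp hp).1 h)
      · exact Or.inr ((Nat.prime_dvd_prime_iff_eq hrp hq).1 h)
    rcases hrpq with rfl | rfl
    · left
      refine ⟨⟨m', ?_⟩, hdq.ne'⟩
      have h1 : r * (d * q) = r * (k * m') := by
        calc r * (d * q) = d * r * q := by ring
          _ = k * m := hm
          _ = r * (k * m') := by rw [hm']; ring
      exact Nat.eq_of_mul_eq_mul_left hp0 h1
    · right
      refine ⟨⟨m', ?_⟩, hdp.ne'⟩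
      have h1 : r * (d * p) = r * (k * m') := by
        calc r * (d * p) = d * p * r := by ring
          _ = k * m := hm
          _ = r * (k * m') := by rw [hm']; ring
      exact Nat.eq_of_mul_eq_mul_left hq0 h1

theorem D1_inter (d p q : ℕ) (hd : 0 < d) (hp : p.Prime) (hq : q.Prime) (hpq : p ≠ q) :
    (d * q).divisors ∩ (d * p).divisors = d.divisors := by
  have hdp : 0 < d * p := Nat.mul_pos hd hp.pos
  have hdq : 0 < d * q := Nat.mul_pos hd hq.pos
  ext k
  rw [Finset.mem_inter, Nat.mem_divisors, Nat.mem_divisors, Nat.mem_divisors]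
  constructor
  · rintro ⟨⟨h1, -⟩, ⟨h2, -⟩⟩
    refine ⟨?_, hd.ne'⟩
    have h3 := Nat.dvd_gcd h1 h2
    rw [Nat.gcd_mul_left, (Nat.coprime_primes hq hp).2 (Ne.symm hpq), mul_one] at h3
    exact h3
  · rintro ⟨h, -⟩
    exact ⟨⟨h.trans ⟨q, rfl⟩, hdq.ne'⟩, ⟨h.trans ⟨p, rfl⟩, hdp.ne'⟩⟩

theorem cyclotomic_pair (d p q : ℕ) (hd : 0 < d) (hp : p.Prime) (hq : q.Prime) (hpq : p ≠ q)
    (hr : ∀ r : ℕ, r.Prime → r ∣ d → r = p ∨ r = q) :
    (X ^ (d * q) - 1 : ℤ[X]) * (X ^ (d * p) - 1) * cyclotomic (d * p * q) ℤ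
      = (X ^ d - 1) * (X ^ (d * p * q) - 1) := by
  have hdp : 0 < d * p := Nat.mul_pos hd hp.pos
  have hdq : 0 < d * q := Nat.mul_pos hd hq.pos
  have hn : 0 < d * p * q := Nat.mul_pos hdp hq.pos
  rw [← prod_cyclotomic_eq_X_pow_sub_one hdq ℤ, ← prod_cyclotomic_eq_X_pow_sub_one hdp ℤ,
    ← prod_cyclotomic_eq_X_pow_sub_one hd ℤ, ← prod_cyclotomic_eq_X_pow_sub_one hn ℤ,
    ← Finset.prod_union_inter, D1_union d p q hd hp hq hr, D1_inter d p q hd hp hq hpq]
  have hmem : d * p * q ∈ (d * p * q).divisors := Nat.mem_divisors_self _ hn.ne'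
  rw [← Finset.prod_erase_mul _ (fun k => cyclotomic k ℤ) hmem]
  ring

end Pool.Agent.LibTP76
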