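import Pool.Agent.LibTP76.S2
import Pool.Agent.LibTP76.D1

/-!
ROW D2: the Apery polynomial.

`WW_eq`: coefficientwise: for `y ∈ S`, `y > 0`, the coefficient of `X ^ n` in `(1 - X ^ y) HH S` is
`[n ∈ S] - [n ≥ y, n - y ∈ S]`, which is `1` if `Ap S y n` and `0` otherwise; an element of the
Apery set satisfies `w ≤ (largest gap) + y`.
`WW_dvd`: with `P0` such that `PP S hS = cyclotomic n ℤ * P0`, `n = d p q`, as power series
`(1 - X ^ (d q)) (1 - X ^ (d p)) HH (1 - X) = (1 - X^(d q)) (1 - X^(d p)) Φ_n P0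
 = (1 - X^d) (1 - X^n) P0`, and `1 - X ∣ 1 - X ^ d`. Cancel `1 - X`; go back to polynomials
(`Polynomial.coe_inj`/injectivity of the coercion).
-/

set_option autoImplicit false

namespace Pool.Agent.LibTP76

open Polynomial

theorem D2_lt (S : AddSubmonoid ℕ) (hS : ((S : Set ℕ)ᶜ).Finite) (y n : ℕ) (h : Ap S y n) :
    n < hS.toFinset.sup id + y + 1 := by
  by_contra hcon
  have hyn : y ≤ n := by omega
  have hnot : n - y ∉ S := by
    intro hmem
    exact h.2 (n - y) hmem (by omega)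
  have h1 : n - y ∈ hS.toFinset := by
    rw [Set.Finite.mem_toFinset]
    exact hnot
  have h2 : n - y ≤ hS.toFinset.sup id := Finset.le_sup (f := id) h1
  omega

theorem coeff_WW (S : AddSubmonoid ℕ) (hS : ((S : Set ℕ)ᶜ).Finite) (y : ℕ) (n : ℕ)
    [Decidable (Ap S y n)] :
    (WW S hS y).coeff n = if Ap S y n then 1 else 0 := by
  classical
  unfold WW
  rw [Polynomial.finsetSum_coeff]
  simp only [Polynomial.coeff_X_pow]
  rw [Finset.sum_ite_eq]
  by_cases h : Ap S y n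
  · rw [if_pos h, if_pos]
    exact Finset.mem_filter.mpr ⟨Finset.mem_range.mpr (D2_lt S hS y n h), h⟩
  · rw [if_neg h, if_neg]
    intro hmem
    exact h (Finset.mem_filter.mp hmem).2

theorem WW_eq (S : AddSubmonoid ℕ) (hS : ((S : Set ℕ)ᶜ).Finite) (y : ℕ) (hy : y ∈ S)
    (hy0 : 0 < y) :
    ((WW S hS y : ℤ[X]) : PowerSeries ℤ) = (1 - PowerSeries.X ^ y) * HH S := by
  classical
  ext n
  rw [Polynomial.coeff_coe, coeff_WW, sub_mul, one_mul, map_sub, PowerSeries.coeff_X_pow_mul']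
  unfold HH
  simp only [PowerSeries.coeff_mk]
  by_cases hn : n ∈ S
  · by_cases hyn : y ≤ n
    · by_cases hny : n - y ∈ S
      · have hnot : ¬ Ap S y n := fun h => h.2 (n - y) hny (by omega)
        rw [if_neg hnot, if_pos hn, if_pos hyn, if_pos hny]
        ring
      · have hap : Ap S y n := by
          refine ⟨hn, fun s hs heq => hny ?_⟩
          have e : n - y = s := by omega
          rw [e]; exact hs
        rw [if_pos hap, if_pos hn, if_pos hyn, if_neg hny]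
        ring
    · have hap : Ap S y n := ⟨hn, fun s hs heq => hyn (by omega)⟩
      rw [if_pos hap, if_pos hn, if_neg hyn]
      ring
  · have hnot : ¬ Ap S y n := fun h => hn h.1
    rw [if_neg hnot, if_neg hn]
    by_cases hyn : y ≤ n
    · have hny : n - y ∉ S := by
        intro h
        apply hn
        have : n = (n - y) + y := by omega
        rw [this]
        exact S.add_mem h hy
      rw [if_pos hyn, if_neg hny]
      ring
    · rw [if_neg hyn]
      ring

theorem WW_dvd (S : AddSubmonoid ℕ) (hS : ((S : Set ℕ)ᶜ).Finite) (d p q : ℕ) (hd : 0 < d)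
    (hp : p.Prime) (hq : q.Prime) (hpq : p ≠ q)
    (hr : ∀ r : ℕ, r.Prime → r ∣ d → r = p ∨ r = q) (hx : d * q ∈ S) (hy : d * p ∈ S)
    (hP : cyclotomic (d * p * q) ℤ ∣ PP S hS) :
    (X ^ (d * p * q) - 1 : ℤ[X]) ∣ (X ^ (d * q) - 1) * WW S hS (d * p) := by
  obtain ⟨P0, hP0⟩ := hP
  have hW := WW_eq S hS (d * p) hy (Nat.mul_pos hd hp.pos)
  have hH := HH_mul S hS
  have hC := cyclotomic_pair d p q hd hp hq hpq hr
  have hg : (1 - X : ℤ[X]) * ∑ i ∈ Finset.range d, X ^ i = 1 - X ^ d := mul_neg_geom_sum X d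
  have hpoly : (X ^ (d * q) - 1 : ℤ[X]) * (1 - X ^ (d * p)) * PP S hS =
      (1 - X) * ((X ^ (d * p * q) - 1) * ((∑ i ∈ Finset.range d, X ^ i) * P0)) := by
    rw [hP0]
    calc (X ^ (d * q) - 1 : ℤ[X]) * (1 - X ^ (d * p)) * (cyclotomic (d * p * q) ℤ * P0)
        = -((X ^ (d * q) - 1) * (X ^ (d * p) - 1) * cyclotomic (d * p * q) ℤ) * P0 := by ring
      _ = -((X ^ d - 1) * (X ^ (d * p * q) - 1)) * P0 := by rw [hC]
      _ = (1 - X ^ d) * (X ^ (d * p * q) - 1) * P0 := by ring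
      _ = ((1 - X) * ∑ i ∈ Finset.range d, X ^ i) * (X ^ (d * p * q) - 1) * P0 := by rw [hg]
      _ = _ := by ring
  have hE : (1 - X : ℤ[X]) * ((X ^ (d * q) - 1) * WW S hS (d * p)) =
      (1 - X) * ((X ^ (d * p * q) - 1) * ((∑ i ∈ Finset.range d, X ^ i) * P0)) := by
    rw [← hpoly]
    apply Polynomial.coe_injective ℤ
    show (((1 - X : ℤ[X]) * ((X ^ (d * q) - 1) * WW S hS (d * p)) : ℤ[X]) : PowerSeries ℤ) =
      (((X ^ (d * q) - 1 : ℤ[X]) * (1 - X ^ (d * p)) * PP S hS : ℤ[X]) : PowerSeries ℤ)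
    have e1 : (((1 - X : ℤ[X]) * ((X ^ (d * q) - 1) * WW S hS (d * p)) : ℤ[X]) : PowerSeries ℤ) =
        (1 - PowerSeries.X) * (((X ^ (d * q) - 1 : ℤ[X]) : PowerSeries ℤ) * ((WW S hS (d * p) : ℤ[X]) : PowerSeries ℤ)) := by
      rw [Polynomial.coe_mul, Polynomial.coe_mul]
      congr 1
      simp
    have e2 : (((X ^ (d * q) - 1 : ℤ[X]) * (1 - X ^ (d * p)) * PP S hS : ℤ[X]) : PowerSeries ℤ) =
        ((X ^ (d * q) - 1 : ℤ[X]) : PowerSeries ℤ) * (1 - PowerSeries.X ^ (d * p)) * ((PP S hS : ℤ[X]) : PowerSeries ℤ) := by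
      rw [Polynomial.coe_mul, Polynomial.coe_mul]
      congr 2
      simp
    rw [e1, e2, hW, ← hH]
    ring
  have h1X : (1 - X : ℤ[X]) ≠ 0 := by
    intro h
    have := congrArg (Polynomial.coeff · 0) h
    simp at this
  have hfin := mul_left_cancel₀ h1X hE
  exact ⟨_, hfin⟩

end Pool.Agent.LibTP76
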