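import Pool.Agent.LibTP76.D2

/-!
ROW D3: periodicity of the Apery set. `n = d p q`, `x = d q`, `y = d p`.

For `i : ZMod n` let `f i` be the number of `w` with `Ap S y w` and `(w : ZMod n) = i`, i.e. the
`i`-th class sum of the coefficients of `WW`. Apply to the divisibility `WW_dvd` the ring hom
`ℤ[X] → AddMonoidAlgebra ℤ (ZMod n)`, `X ↦ single 1 1` (`Polynomial.aeval`), which kills
`X ^ n - 1` and sends `WW` to `∑_{w} single (w : ZMod n) 1`: one gets
`(single (x : ZMod n) 1 - 1) * F = 0`, i.e. `f (i - x) = f i` for all `i`, so `f (i + x) = f i`.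
The Apery set has at most one element in each class modulo `y` (of two elements of `S` congruent
mod `y` the larger one is not in it... precisely: `w < w'`, `w' = w + k y`, `k ≥ 1`,
`w' = (w + (k-1) y) + y` with `w + (k-1) y ∈ S` as `y ∈ S`).
Now let `Ap S y w`, `Ap S y w'`, `w ≡ w' [MOD d]`. As `gcd (x, y) = d` there is `t` with
`w + t x ≡ w' [MOD y]`. `f (w + t x) = f w ≥ 1`, so there is `w''` in the Apery set with
`w'' ≡ w + t x [MOD n]`; then `w'' ≡ w' [MOD y]`, so `w'' = w'`, and `w' ≡ w + t x ≡ w [MOD x]`.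
-/

set_option autoImplicit false

namespace Pool.Agent.LibTP76

open Polynomial

/-- Class sums of the coefficients. -/
noncomputable def D3_l (n : ℕ) (i : ZMod n) : ℤ[X] →ₗ[ℤ] ℤ :=
  Polynomial.lsum (fun k => if (k : ZMod n) = i then LinearMap.id else 0)

theorem D3_l_monomial (n : ℕ) (i : ZMod n) (k : ℕ) (a : ℤ) :
    D3_l n i (monomial k a) = if (k : ZMod n) = i then a else 0 := by
  rw [D3_l, Polynomial.lsum_apply, Polynomial.sum_monomial_index]
  · split_ifs <;> simp
  · split_ifs <;> simp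

theorem D3_l_shift (n : ℕ) (i : ZMod n) (m : ℕ) (F : ℤ[X]) :
    D3_l n i (X ^ m * F) = D3_l n (i - (m : ZMod n)) F := by
  induction F using Polynomial.induction_on' with
  | add p q hp hq => rw [mul_add, map_add, map_add, hp, hq]
  | monomial k a =>
    rw [X_pow_mul_monomial, D3_l_monomial, D3_l_monomial]
    have : ((k + m : ℕ) : ZMod n) = i ↔ (k : ZMod n) = i - (m : ZMod n) := by
      rw [Nat.cast_add, eq_sub_iff_add_eq]
    simp only [this]

theorem D3_mem_range {S : AddSubmonoid ℕ} (hS : ((S : Set ℕ)ᶜ).Finite) {y w : ℕ}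
    (hw : Ap S y w) : w < hS.toFinset.sup id + y + 1 := by
  by_cases h : w < y
  · omega
  · have h1 : w - y ∉ S := fun h2 => hw.2 (w - y) h2 (by omega)
    have h2 : w - y ∈ hS.toFinset := by
      rw [Set.Finite.mem_toFinset]
      exact h1
    have h3 : id (w - y) ≤ hS.toFinset.sup id := Finset.le_sup h2
    simp only [id] at h3
    omega

theorem D3_unique {S : AddSubmonoid ℕ} {y w w' : ℕ} (hyS : y ∈ S) (hw : Ap S y w)
    (hw' : Ap S y w') (h : w ≡ w' [MOD y]) : w = w' := by
  have key : ∀ a b : ℕ, Ap S y a → Ap S y b → a ≡ b [MOD y] → a < b → False := by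
    intro a b ha hb hab hlt
    have hd : y ∣ b - a := (Nat.modEq_iff_dvd' hlt.le).1 hab
    obtain ⟨k, hk⟩ := hd
    have hk0 : k ≠ 0 := by
      rintro rfl
      omega
    obtain ⟨j, rfl⟩ : ∃ j, k = j + 1 := ⟨k - 1, by omega⟩
    refine hb.2 (a + j • y) (S.add_mem ha.1 (S.nsmul_mem hyS j)) ?_
    rw [smul_eq_mul]
    have : b = a + y * (j + 1) := by omega
    rw [this]
    ring
  rcases lt_trichotomy w w' with h1 | h1 | h1
  · exact (key w w' hw hw' h h1).elim
  · exact h1
  · exact (key w' w hw' hw h.symm h1).elim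

theorem ap_congr (S : AddSubmonoid ℕ) (hS : ((S : Set ℕ)ᶜ).Finite) (d p q : ℕ) (_hd : 0 < d)
    (hp : p.Prime) (hq : q.Prime) (hpq : p ≠ q) (hy : d * p ∈ S)
    (hdvd : (X ^ (d * p * q) - 1 : ℤ[X]) ∣ (X ^ (d * q) - 1) * WW S hS (d * p))
    (w w' : ℕ) (hw : Ap S (d * p) w) (hw' : Ap S (d * p) w') (h : w ≡ w' [MOD d]) :
    w ≡ w' [MOD d * q] := by
  classical
  obtain ⟨K, hK⟩ := hdvd
  set n := d * p * q with hn
  set A := (Finset.range (hS.toFinset.sup id + d * p + 1)).filter (fun w => Ap S (d * p) w) with hA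
  have hWW : WW S hS (d * p) = ∑ w ∈ A, X ^ w := by
    rw [WW, hA]
  -- periodicity
  have hper : ∀ i : ZMod n, D3_l n (i - ((d * q : ℕ) : ZMod n)) (WW S hS (d * p)) =
      D3_l n i (WW S hS (d * p)) := by
    intro i
    have h1 := congrArg (D3_l n i) hK
    rw [sub_mul, one_mul, sub_mul, one_mul, map_sub, map_sub, D3_l_shift, D3_l_shift] at h1
    have h2 : ((n : ℕ) : ZMod n) = 0 := ZMod.natCast_self n
    rw [h2, sub_zero, sub_self] at h1
    linarith
  have hper' : ∀ (t : ℕ) (i : ZMod n), D3_l n (i + ((t * (d * q) : ℕ) : ZMod n))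
      (WW S hS (d * p)) = D3_l n i (WW S hS (d * p)) := by
    intro t
    induction t with
    | zero => intro i; simp
    | succ t ih =>
      intro i
      rw [← hper (i + (((t + 1) * (d * q) : ℕ) : ZMod n)), ← ih i]
      congr 2
      push_cast
      ring
  -- values
  have hval : ∀ i : ZMod n, D3_l n i (WW S hS (d * p)) =
      ∑ w ∈ A, if (w : ZMod n) = i then 1 else 0 := by
    intro i
    rw [hWW, map_sum]
    refine Finset.sum_congr rfl fun k _ => ?_
    rw [← Polynomial.monomial_one_right_eq_X_pow, D3_l_monomial]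
  have hwA : w ∈ A := by
    rw [hA, Finset.mem_filter, Finset.mem_range]
    exact ⟨D3_mem_range hS hw, hw⟩
  -- find t
  obtain ⟨e, he⟩ : (d : ℤ) ∣ (w' : ℤ) - w := (Nat.modEq_iff_dvd).1 h
  haveI : Fact p.Prime := ⟨hp⟩
  have hq0 : ((q : ℕ) : ZMod p) ≠ 0 := by
    intro h0
    rw [ZMod.natCast_eq_zero_iff] at h0
    exact hpq ((Nat.prime_dvd_prime_iff_eq hp hq).1 h0)
  set t := ((e : ZMod p) * ((q : ℕ) : ZMod p)⁻¹).val with ht
  have htq : (p : ℤ) ∣ (t : ℤ) * q - e := by
    rw [← ZMod.intCast_zmod_eq_zero_iff_dvd]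
    push_cast
    rw [ht, ZMod.natCast_zmod_val]
    field_simp
    ring
  obtain ⟨c, hc⟩ := htq
  -- the element in the class of w + t x
  have hpos : 0 < D3_l n ((w : ZMod n) + ((t * (d * q) : ℕ) : ZMod n)) (WW S hS (d * p)) := by
    rw [hper', hval]
    apply lt_of_lt_of_le (zero_lt_one (α := ℤ))
    calc (1 : ℤ) = if (w : ZMod n) = (w : ZMod n) then 1 else 0 := by simp
      _ ≤ ∑ k ∈ A, if (k : ZMod n) = (w : ZMod n) then (1 : ℤ) else 0 := by
        apply Finset.single_le_sum (f := fun k : ℕ => if (k : ZMod n) = (w : ZMod n) then (1 : ℤ) else 0) _ hwA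
        intro k _
        split_ifs <;> norm_num
  rw [hval] at hpos
  obtain ⟨w'', hw''A, hw''⟩ : ∃ k ∈ A, (k : ZMod n) = (w : ZMod n) + ((t * (d * q) : ℕ) : ZMod n) := by
    by_contra hcon
    push_neg at hcon
    have : ∑ k ∈ A, (if (k : ZMod n) = (w : ZMod n) + ((t * (d * q) : ℕ) : ZMod n) then (1 : ℤ) else 0) = 0 := by
      apply Finset.sum_eq_zero
      intro k hk
      rw [if_neg (hcon k hk)]
    omega
  have hap : Ap S (d * p) w'' := (Finset.mem_filter.1 hw''A).2
  have hmod : w'' ≡ w + t * (d * q) [MOD n] := by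
    rw [← ZMod.natCast_eq_natCast_iff]
    rw [hw'']
    push_cast
    ring
  have hmody : w'' ≡ w' [MOD d * p] := by
    have h1 : w'' ≡ w + t * (d * q) [MOD d * p] := hmod.of_dvd ⟨q, by rw [hn]⟩
    have h2 : w + t * (d * q) ≡ w' [MOD d * p] := by
      rw [Nat.modEq_iff_dvd]
      refine ⟨-c, ?_⟩
      push_cast
      have h3 : (w' : ℤ) = w + d * e := by linarith
      rw [h3]
      have h4 : (e : ℤ) = t * q - p * c := by linarith
      rw [h4]
      ring
    exact h1.trans h2
  have heq := D3_unique hy hap hw' hmody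
  rw [heq] at hmod
  have h5 : w' ≡ w + t * (d * q) [MOD d * q] := hmod.of_dvd ⟨p, by rw [hn]; ring⟩
  have h6 : w + t * (d * q) ≡ w [MOD d * q] := by
    have : w + t * (d * q) ≡ w + 0 [MOD d * q] :=
      Nat.ModEq.add_left w ((Nat.modEq_zero_iff_dvd).2 (Dvd.intro_left t rfl))
    simpa using this
  exact (h5.trans h6).symm

end Pool.Agent.LibTP76
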