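import Pool.Agent.LibTP76.D3
import Pool.Agent.LibTP76.A2

/-!
ROW D4: the classes modulo `d`. `x = d q`, `y = d p`, `n = d p q`.

`cls`: let `t ∈ S`, `s = low S d t` (`low_spec`). `s` is in the Apery set of `y` (if `s = s' + y` then
`s' ∈ S` is smaller and congruent mod `d`). Let `w` be the Apery element with `t = w + k y`
(subtract `y` as long as possible; `w ≡ t ≡ s [MOD d]`, and `w ≥ s`). By `hap`, `w ≡ s [MOD x]`, so
`w = s + j x` for some `j` (`w ≥ s`). Put `j = p a + j'`, `j' < p`; `w' = s + j' x ∈ S` and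
`w - w' = a p x = a q y` is a multiple of `y`; as `w` is in the Apery set, `a = 0`
(otherwise `w = (w' + (a q - 1) y) + y`). In any case `t = s + j x + k y`. So one does not even need
`j < p` here. (It is needed in row D5.)
-/

set_option autoImplicit false

namespace Pool.Agent.LibTP76

open Polynomial

theorem D4_ap (S : AddSubmonoid ℕ) (y : ℕ) (hy : 0 < y) : ∀ t ∈ S, ∃ w k : ℕ, Ap S y w ∧ t = w + k * y := by
  intro t
  induction t using Nat.strong_induction_on with
  | _ t ih =>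
    intro ht
    by_cases h : Ap S y t
    · exact ⟨t, 0, h, by omega⟩
    · have h' : ∃ s ∈ S, s + y = t := by
        by_contra hcon
        push Not at hcon
        exact h ⟨ht, hcon⟩
      obtain ⟨s, hs, hst⟩ := h'
      obtain ⟨w, k, hw, hk⟩ := ih s (by omega) hs
      refine ⟨w, k + 1, hw, ?_⟩
      rw [← hst, hk]
      ring

theorem glu_of (S : AddSubmonoid ℕ) (hS : ((S : Set ℕ)ᶜ).Finite) (d p q : ℕ) (hd : 0 < d)
    (hp : p.Prime) (hq : q.Prime) (hpq : p ≠ q) (hdS : d ∉ S) (hx : d * q ∈ S) (hy : d * p ∈ S)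
    (hap : ∀ w w' : ℕ, Ap S (d * p) w → Ap S (d * p) w' → w ≡ w' [MOD d] → w ≡ w' [MOD d * q]) :
    Glu S d p q := by
  have hy0 : 0 < d * p := Nat.mul_pos hd hp.pos
  refine ⟨hd, hp.one_lt, hq.one_lt, (Nat.coprime_primes hp hq).mpr hpq, hdS, hx, hy, ?_⟩
  intro t ht
  obtain ⟨hlow, hmod, hle⟩ := low_spec S d t ht
  set s := low S d t with hs
  obtain ⟨w, k, hw, hk⟩ := D4_ap S (d * p) hy0 t ht
  have hdp : d * p ≡ 0 [MOD d] := (Nat.modEq_zero_iff_dvd).mpr (Dvd.intro p rfl)
  have hsap : Ap S (d * p) s := by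
    refine ⟨hlow.1, fun s' hs' heq => ?_⟩
    have h1 : s' ≡ s [MOD d] := by
      have h2 : s' + d * p ≡ s' + 0 [MOD d] := hdp.add_left s'
      rw [heq, Nat.add_zero] at h2
      exact h2.symm
    have h3 := hlow.2 s' hs' h1
    omega
  have hwt : w ≡ t [MOD d] := by
    have h1 : k * (d * p) ≡ 0 [MOD d] := (Nat.modEq_zero_iff_dvd).mpr (Dvd.dvd.mul_left (Dvd.intro p rfl) k)
    have h2 : w + k * (d * p) ≡ w + 0 [MOD d] := h1.add_left w
    rw [← hk, Nat.add_zero] at h2
    exact h2.symm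
  have hws : w ≡ s [MOD d] := hwt.trans hmod.symm
  have hsw : s ≤ w := hlow.2 w hw.1 hws
  have hmodx : w ≡ s [MOD d * q] := hap w s hw hsap hws
  have hdvd : d * q ∣ w - s := (Nat.modEq_iff_dvd' hsw).mp hmodx.symm
  obtain ⟨j, hj⟩ := hdvd
  refine ⟨s, j, k, hlow, ?_⟩
  have : w = s + j * (d * q) := by
    have : w = s + (w - s) := by omega
    rw [this, hj]; ring
  rw [hk, this]

end Pool.Agent.LibTP76
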