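import Pool.Agent.LibTP76.D2
import Pool.Agent.LibTP76.A1
import Pool.Agent.LibTP76.A2

/-!
ROW D5: the semigroup polynomial of `plus S d`. `x = d q`, `y = d p`, `n = d p q`.

`ap_iff`: for `Glu S d p q`: `Ap S y w ↔ ∃ s u, Low S d s ∧ u < p ∧ w = s + u * x`, and `(s, u)` is
unique. (→: `cls` gives `w = s + u x + v y`; `v = 0` since `w` is Apery; if `u ≥ p` then
`p x = q y` can be split off. ←: `s + u x = s' + y`, `s' ∈ S`, `s' = s + u' x + v' y` (same class,
same Low element), so `u q = u' q + (v' + 1) p`; so `p ∣ (u - u') q`, `p ∣ u - u'`, `0 ≤ u - u' < p`,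
so `u = u'`, contradiction.)
`series_S`: so `(1 - X ^ y) HH S = LL S d * ∑_{u < p} X ^ (u x)`, and multiplying by `1 - X ^ x`:
`(1 - X ^ y) (1 - X ^ x) HH S = LL S d * (1 - X ^ n)`.
`series_plus`: `(1 - X ^ d) HH (plus S d) = LL S d` (`mem_plus`; the Apery set of `plus S d` with
respect to `d` is the set of Low elements).
`PP_plus`: from `HH_mul`, `cyclotomic_pair` and cancellation
(`(1 - X ^ x) (1 - X ^ y) Φ_n = (1 - X ^ d) (1 - X ^ n)`).
-/

set_option autoImplicit false

namespace Pool.Agent.LibTP76

open Polynomial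

theorem plus_finite (S : AddSubmonoid ℕ) (hS : ((S : Set ℕ)ᶜ).Finite) (d : ℕ) :
    (((plus S d : AddSubmonoid ℕ) : Set ℕ)ᶜ).Finite := by
  refine hS.subset ?_
  intro n hn hS'
  apply hn
  have h : S ≤ plus S d := le_sup_left
  exact h hS'

open Classical in
theorem D5_coeff_HH (S : AddSubmonoid ℕ) (n : ℕ) :
    PowerSeries.coeff n (HH S) = if n ∈ S then (1 : ℤ) else 0 := by
  unfold HH
  rw [PowerSeries.coeff_mk]

open Classical in
theorem D5_coeff_LL (S : AddSubmonoid ℕ) (d n : ℕ) :
    PowerSeries.coeff n (LL S d) = if Low S d n then (1 : ℤ) else 0 := by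
  unfold LL
  rw [PowerSeries.coeff_mk]

open Classical in
theorem D5_sum {S : AddSubmonoid ℕ} {d p q : ℕ} (hG : Glu S d p q) (n : ℕ) :
    ∑ u ∈ Finset.range p, (if d * q * u ≤ n then (if Low S d (n - d * q * u) then (1 : ℤ) else 0) else 0)
      = (if n ∈ S then (1 : ℤ) else 0) - (if d * p ≤ n then (if n - d * p ∈ S then (1 : ℤ) else 0) else 0) := by
  have hd := hG.d0
  have hp := hG.p1
  have hq := hG.q1
  have hx : ∀ u : ℕ, d * q * u ∈ S := fun u => by
    have := S.nsmul_mem hG.xS u
    rwa [smul_eq_mul, mul_comm] at this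
  have hy : ∀ u : ℕ, d * p * u ∈ S := fun u => by
    have := S.nsmul_mem hG.yS u
    rwa [smul_eq_mul, mul_comm] at this
  have hmod : ∀ u, d * q * u ≤ n → n - d * q * u ≡ n [MOD d] := fun u hu => by
    have h1 : d ∣ d * q * u := ⟨q * u, by ring⟩
    exact (Nat.modEq_iff_dvd' (Nat.sub_le _ _)).mpr (by rw [Nat.sub_sub_self hu]; exact h1)
  have huniq : ∀ u v, d * q * u ≤ n → Low S d (n - d * q * u) → d * q * v ≤ n →
      Low S d (n - d * q * v) → u = v := by
    intro u v hu hLu hv hLv
    have h1 := low_unique S d _ _ hLu hLv ((hmod u hu).trans (hmod v hv).symm)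
    have h2 : d * q * u = d * q * v := by omega
    exact Nat.eq_of_mul_eq_mul_left (Nat.mul_pos hd (by omega)) h2
  by_cases hn : n ∈ S
  · by_cases hny : d * p ≤ n ∧ n - d * p ∈ S
    · rw [if_pos hn, if_pos hny.1, if_pos hny.2, sub_self]
      refine Finset.sum_eq_zero fun u hu => ?_
      rw [Finset.mem_range] at hu
      by_cases h1 : d * q * u ≤ n
      · rw [if_pos h1, if_neg]
        intro hL
        obtain ⟨s, u', v', hs, ht⟩ := hG.cls _ hny.2
        have e1 : s ≡ n [MOD d] := by
          have h2 : d ∣ n - s := ⟨u' * q + v' * p + p, by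
            have : n = s + u' * (d * q) + v' * (d * p) + d * p := by omega
            rw [this]
            have e : s + u' * (d * q) + v' * (d * p) + d * p - s = u' * (d * q) + v' * (d * p) + d * p := by omega
            rw [e]; ring⟩
          exact (Nat.modEq_iff_dvd' (by omega)).mpr h2
        have e2 := low_unique S d _ _ hs hL (e1.trans (hmod u h1).symm)
        have e3 : d * q * u = u' * (d * q) + v' * (d * p) + d * p := by omega
        have e4 : q * u = q * u' + p * (v' + 1) := by
          have : d * (q * u) = d * (q * u' + p * (v' + 1)) := by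
            calc d * (q * u) = d * q * u := by ring
              _ = u' * (d * q) + v' * (d * p) + d * p := e3
              _ = _ := by ring
          exact Nat.eq_of_mul_eq_mul_left hd this
        have e5 : u' < u := by
          by_contra hle
          have : q * u ≤ q * u' := Nat.mul_le_mul_left _ (by omega)
          have h3 : 0 < p * (v' + 1) := by positivity
          omega
        have e6 : p ∣ q * (u - u') := ⟨v' + 1, by
          have : q * (u - u') = q * u - q * u' := Nat.mul_sub _ _ _
          omega⟩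
        have e7 : p ∣ u - u' := hG.cop.dvd_of_dvd_mul_left e6
        have := Nat.le_of_dvd (by omega) e7
        omega
      · rw [if_neg h1]
    · have hz : (if d * p ≤ n then (if n - d * p ∈ S then (1 : ℤ) else 0) else 0) = 0 := by
        split_ifs with h1 h2
        · exact absurd ⟨h1, h2⟩ hny
        · rfl
        · rfl
      rw [hz, if_pos hn, sub_zero]
      obtain ⟨s, u, v, hs, ht⟩ := hG.cls _ hn
      have hv : v = 0 := by
        rcases Nat.eq_zero_or_pos v with h | h
        · exact h
        · exfalso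
          apply hny
          obtain ⟨w, rfl⟩ : ∃ w, v = w + 1 := ⟨v - 1, by omega⟩
          have e1 : n = s + d * q * u + d * p * w + d * p := by rw [ht]; ring
          refine ⟨by omega, ?_⟩
          have e2 : n - d * p = s + d * q * u + d * p * w := by omega
          rw [e2]
          exact S.add_mem (S.add_mem hs.1 (hx u)) (hy w)
      rw [hv, zero_mul, add_zero] at ht
      have hu : u < p := by
        by_contra hle
        push Not at hle
        obtain ⟨w, rfl⟩ : ∃ w, u = p + w := ⟨u - p, by omega⟩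
        obtain ⟨q', rfl⟩ : ∃ q', q = q' + 1 := ⟨q - 1, by omega⟩
        apply hny
        have e1 : n = s + d * (q' + 1) * w + d * p * q' + d * p := by rw [ht]; ring
        refine ⟨by omega, ?_⟩
        have e2 : n - d * p = s + d * (q' + 1) * w + d * p * q' := by omega
        rw [e2]
        exact S.add_mem (S.add_mem hs.1 (hx w)) (hy q')
      have e1 : n = s + d * q * u := by rw [ht]; ring
      have e2 : n - d * q * u = s := by omega
      rw [Finset.sum_eq_single u]
      · rw [if_pos (by omega), e2, if_pos hs]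
      · intro v _ hne
        by_cases h1 : d * q * v ≤ n
        · rw [if_pos h1, if_neg]
          intro hL
          exact hne (huniq v u h1 hL (by omega) (by rw [e2]; exact hs))
        · rw [if_neg h1]
      · intro h
        exact absurd (Finset.mem_range.mpr hu) h
  · have hz : (if d * p ≤ n then (if n - d * p ∈ S then (1 : ℤ) else 0) else 0) = 0 := by
      split_ifs with h1 h2
      · exfalso
        apply hn
        have := S.add_mem h2 hG.yS
        rwa [Nat.sub_add_cancel h1] at this
      · rfl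
      · rfl
    rw [hz, if_neg hn, sub_zero]
    refine Finset.sum_eq_zero fun u hu => ?_
    by_cases h1 : d * q * u ≤ n
    · rw [if_pos h1, if_neg]
      intro hL
      apply hn
      have := S.add_mem hL.1 (hx u)
      rwa [Nat.sub_add_cancel h1] at this
    · rw [if_neg h1]

theorem D5_apery {S : AddSubmonoid ℕ} {d p q : ℕ} (hG : Glu S d p q) :
    (1 - PowerSeries.X ^ (d * p)) * HH S
      = LL S d * ∑ u ∈ Finset.range p, ((PowerSeries.X : PowerSeries ℤ) ^ (d * q)) ^ u := by
  classical
  ext n
  rw [sub_mul, one_mul, map_sub, PowerSeries.coeff_X_pow_mul', D5_coeff_HH, D5_coeff_HH,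
    mul_comm (LL S d), Finset.sum_mul, map_sum]
  rw [← D5_sum hG n]
  refine Finset.sum_congr rfl fun u _ => ?_
  rw [← pow_mul, PowerSeries.coeff_X_pow_mul', D5_coeff_LL]

theorem series_S {S : AddSubmonoid ℕ} {d p q : ℕ} (hG : Glu S d p q) :
    (1 - PowerSeries.X ^ (d * p)) * (1 - PowerSeries.X ^ (d * q)) * HH S
      = LL S d * (1 - PowerSeries.X ^ (d * p * q)) := by
  have h := D5_apery hG
  have h2 := mul_neg_geom_sum ((PowerSeries.X : PowerSeries ℤ) ^ (d * q)) p
  have h3 : ((PowerSeries.X : PowerSeries ℤ) ^ (d * q)) ^ p = PowerSeries.X ^ (d * p * q) := by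
    rw [← pow_mul]; congr 1; ring
  rw [h3] at h2
  calc (1 - PowerSeries.X ^ (d * p)) * (1 - PowerSeries.X ^ (d * q)) * HH S
      = (1 - PowerSeries.X ^ (d * q)) * ((1 - PowerSeries.X ^ (d * p)) * HH S) := by ring
    _ = LL S d * ((1 - PowerSeries.X ^ (d * q)) *
          ∑ u ∈ Finset.range p, ((PowerSeries.X : PowerSeries ℤ) ^ (d * q)) ^ u) := by rw [h]; ring
    _ = _ := by rw [h2]

theorem series_plus (S : AddSubmonoid ℕ) (d : ℕ) (hd : 0 < d) :
    (1 - PowerSeries.X ^ d) * HH (plus S d) = LL S d := by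
  classical
  ext n
  rw [sub_mul, one_mul, map_sub, PowerSeries.coeff_X_pow_mul', D5_coeff_HH, D5_coeff_HH, D5_coeff_LL]
  by_cases hL : Low S d n
  · rw [if_pos hL]
    have h1 : n ∈ plus S d := (mem_plus S d n).mpr ⟨n, hL.1, 0, by simp⟩
    rw [if_pos h1]
    have h2 : (if d ≤ n then (if n - d ∈ plus S d then (1 : ℤ) else 0) else 0) = 0 := by
      split_ifs with h3 h4
      · exfalso
        obtain ⟨s, hs, k, hk⟩ := (mem_plus S d _).mp h4
        have e1 : n = s + (k + 1) * d := by
          have : n = s + k * d + d := by omega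
          rw [this]; ring
        have h5 : s ≡ n [MOD d] := by
          rw [e1]
          have : d ∣ (s + (k + 1) * d) - s := ⟨k + 1, by
            rw [Nat.add_sub_cancel_left]; ring⟩
          exact (Nat.modEq_iff_dvd' (by omega)).mpr this
        have h6 := hL.2 s hs h5
        have h7 : 0 < (k + 1) * d := by positivity
        omega
      · rfl
      · rfl
    rw [h2, sub_zero]
  · rw [if_neg hL]
    by_cases h1 : n ∈ plus S d
    · rw [if_pos h1]
      have h2 : d ≤ n ∧ n - d ∈ plus S d := by
        obtain ⟨s, hs, k, hk⟩ := (mem_plus S d _).mp h1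
        rcases Nat.eq_zero_or_pos k with h0 | h0
        · rw [h0, zero_mul, add_zero] at hk
          have h3 : ¬ ∀ t ∈ S, t ≡ n [MOD d] → n ≤ t := fun h => hL ⟨by rw [hk]; exact hs, h⟩
          push Not at h3
          obtain ⟨t, ht, hmod, hlt⟩ := h3
          obtain ⟨j, hj⟩ := (Nat.modEq_iff_dvd' (by omega)).mp hmod
          have hj0 : 0 < j := by
            rcases Nat.eq_zero_or_pos j with h | h
            · rw [h, mul_zero] at hj; omega
            · exact h
          obtain ⟨i, rfl⟩ : ∃ i, j = i + 1 := ⟨j - 1, by omega⟩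
          have e1 : n = t + i * d + d := by
            have : n = t + d * (i + 1) := by omega
            rw [this]; ring
          refine ⟨by omega, (mem_plus S d _).mpr ⟨t, ht, i, by omega⟩⟩
        · obtain ⟨i, rfl⟩ : ∃ i, k = i + 1 := ⟨k - 1, by omega⟩
          have e1 : n = s + i * d + d := by rw [hk]; ring
          refine ⟨by omega, (mem_plus S d _).mpr ⟨s, hs, i, by omega⟩⟩
      rw [if_pos h2.1, if_pos h2.2, sub_self]
    · rw [if_neg h1]
      have h2 : (if d ≤ n then (if n - d ∈ plus S d then (1 : ℤ) else 0) else 0) = 0 := by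
        split_ifs with h3 h4
        · exfalso
          apply h1
          obtain ⟨s, hs, k, hk⟩ := (mem_plus S d _).mp h4
          refine (mem_plus S d _).mpr ⟨s, hs, k + 1, ?_⟩
          have : n = s + k * d + d := by omega
          rw [this]; ring
        · rfl
        · rfl
      rw [h2, sub_zero]

theorem D5_ne (k : ℕ) (hk : 0 < k) : (1 - PowerSeries.X ^ k : PowerSeries ℤ) ≠ 0 := by
  intro h
  have h1 := congrArg (PowerSeries.coeff 0) h
  rw [map_sub, PowerSeries.coeff_one, PowerSeries.coeff_X_pow] at h1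
  simp [hk.ne] at h1

theorem PP_plus {S : AddSubmonoid ℕ} (hS : ((S : Set ℕ)ᶜ).Finite) {d p q : ℕ}
    (hG : Glu S d p q) (hp : p.Prime) (hq : q.Prime)
    (hr : ∀ r : ℕ, r.Prime → r ∣ d → r = p ∨ r = q) :
    PP S hS = cyclotomic (d * p * q) ℤ * PP (plus S d) (plus_finite S hS d) := by
  have hd := hG.d0
  have hpq : p ≠ q := by
    intro h
    have h1 := hG.cop
    rw [h, Nat.coprime_self] at h1
    have := hG.q1
    omega
  have h1 := HH_mul S hS
  have h2 := HH_mul (plus S d) (plus_finite S hS d)
  have h3 := series_S hG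
  have h4 := series_plus S d hd
  have h5 := cyclotomic_pair d p q hd hp hq hpq hr
  have h6 : ((PowerSeries.X : PowerSeries ℤ) ^ (d * q) - 1) * (PowerSeries.X ^ (d * p) - 1) *
      ((cyclotomic (d * p * q) ℤ : ℤ[X]) : PowerSeries ℤ) =
      (PowerSeries.X ^ d - 1) * (PowerSeries.X ^ (d * p * q) - 1) := by
    have := congrArg (fun f : ℤ[X] => (f : PowerSeries ℤ)) h5
    simpa using this
  have hdp : 0 < d * p := Nat.mul_pos hd hp.pos
  have hdq : 0 < d * q := Nat.mul_pos hd hq.pos
  apply Polynomial.coe_injective ℤ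
  rw [Polynomial.coe_mul, ← h1, ← h2]
  have hne : ((1 - PowerSeries.X ^ (d * p)) * (1 - PowerSeries.X ^ (d * q)) : PowerSeries ℤ) ≠ 0 :=
    mul_ne_zero (D5_ne _ hdp) (D5_ne _ hdq)
  apply mul_left_cancel₀ hne
  calc (1 - PowerSeries.X ^ (d * p)) * (1 - PowerSeries.X ^ (d * q)) * ((1 - PowerSeries.X) * HH S)
      = (1 - PowerSeries.X) * ((1 - PowerSeries.X ^ (d * p)) * (1 - PowerSeries.X ^ (d * q)) * HH S) := by ring
    _ = (1 - PowerSeries.X) * (((1 - PowerSeries.X ^ d) * HH (plus S d)) * (1 - PowerSeries.X ^ (d * p * q))) := by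
        rw [h3, h4]
    _ = ((PowerSeries.X ^ d - 1) * (PowerSeries.X ^ (d * p * q) - 1)) * ((1 - PowerSeries.X) * HH (plus S d)) := by ring
    _ = (((PowerSeries.X : PowerSeries ℤ) ^ (d * q) - 1) * (PowerSeries.X ^ (d * p) - 1) *
      ((cyclotomic (d * p * q) ℤ : ℤ[X]) : PowerSeries ℤ)) * ((1 - PowerSeries.X) * HH (plus S d)) := by rw [h6]
    _ = _ := by ring

end Pool.Agent.LibTP76
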