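import Pool.Agent.LibTP76.Defs

/-!
ROW S1: logarithmic derivative of cyclotomic polynomials. See `Pool/Agent/CycE4/Expo.lean`
(outputs/live) for similar computations (over ℚ).

Say `L F B` : `B * F = X * F'` (power series over ℤ, `PowerSeries.derivative`/`derivativeFun`).
`L F B`, `L G C` ⇒ `L (F G) (B + C)`; and `L (F G) (B + C)`, `L F B` ⇒ `L G C` for `F ≠ 0` (domain).
`L (1 - X ^ n) E_n` (also `X ^ n - 1`) where `E_n = ∑_{N ≥ 1, n ∣ N} - n X ^ N`, `n ≥ 1`.
`∏_{k ∣ n} Φ_k = X ^ n - 1` (`Polynomial.prod_cyclotomic_eq_X_pow_sub_one`) and strong induction on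
`n`: with `B_k := ∑_{N ≥ 1} - ram k N X ^ N` one has `∑_{k ∣ n} B_k = E_n` since
`∑_{k ∣ n} ram k N = ∑_{j ∣ n, j ∣ N} j ∑_{j ∣ k ∣ n} μ (k / j) = n [n ∣ N]`
(or use `ArithmeticFunction.sum_eq_iff_sum_mul_moebius_eq`). So `L (Φ_n) (B_n)`.
-/

set_option autoImplicit false

namespace Pool.Agent.LibTP76

open Polynomial

/-- Generating series of minus the Ramanujan sums. -/
noncomputable def S1_B (k : ℕ) : PowerSeries ℤ :=
  PowerSeries.mk fun N => if N = 0 then 0 else - ram k N

theorem sum_ram (n N : ℕ) (hn : 0 < n) (_hN : 0 < N) :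
    ∑ k ∈ n.divisors, ram k N = if n ∣ N then (n : ℤ) else 0 := by
  have key : ∀ m > 0, ∑ x ∈ m.divisorsAntidiagonal,
      ((ArithmeticFunction.moebius x.fst : ℤ) : ℤ) * (if x.snd ∣ N then (x.snd : ℤ) else 0)
        = ram m N := by
    intro m _
    rw [Nat.sum_divisorsAntidiagonal' (f := fun a b =>
      ((ArithmeticFunction.moebius a : ℤ) : ℤ) * (if b ∣ N then (b : ℤ) else 0))]
    unfold ram
    refine Finset.sum_congr rfl fun k _ => ?_
    split_ifs
    · rw [mul_comm]
    · rw [mul_zero]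
  have := (ArithmeticFunction.sum_eq_iff_sum_mul_moebius_eq (f := fun k => ram k N)
    (g := fun m => if m ∣ N then (m : ℤ) else 0)).2 (by simpa using key)
  exact this n hn

theorem S1_mul {F G : ℤ[X]} {B C : PowerSeries ℤ}
    (hB : B * (F : PowerSeries ℤ) = PowerSeries.X * ((derivative F : ℤ[X]) : PowerSeries ℤ))
    (hC : C * (G : PowerSeries ℤ) = PowerSeries.X * ((derivative G : ℤ[X]) : PowerSeries ℤ)) :
    (B + C) * ((F * G : ℤ[X]) : PowerSeries ℤ) =
      PowerSeries.X * ((derivative (F * G) : ℤ[X]) : PowerSeries ℤ) := by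
  rw [derivative_mul, Polynomial.coe_add, Polynomial.coe_mul, Polynomial.coe_mul,
    Polynomial.coe_mul]
  linear_combination (G : PowerSeries ℤ) * hB + (F : PowerSeries ℤ) * hC

theorem S1_cancel {F G : ℤ[X]} {B C : PowerSeries ℤ} (hF : F ≠ 0)
    (hB : B * (F : PowerSeries ℤ) = PowerSeries.X * ((derivative F : ℤ[X]) : PowerSeries ℤ))
    (h : (B + C) * ((F * G : ℤ[X]) : PowerSeries ℤ) =
      PowerSeries.X * ((derivative (F * G) : ℤ[X]) : PowerSeries ℤ)) :
    C * (G : PowerSeries ℤ) = PowerSeries.X * ((derivative G : ℤ[X]) : PowerSeries ℤ) := by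
  rw [derivative_mul, Polynomial.coe_add, Polynomial.coe_mul, Polynomial.coe_mul,
    Polynomial.coe_mul] at h
  have hF' : (F : PowerSeries ℤ) ≠ 0 := by
    intro h0
    apply hF
    rw [← Polynomial.coe_zero] at h0
    exact Polynomial.coe_injective ℤ h0
  apply mul_left_cancel₀ hF'
  linear_combination h - (G : PowerSeries ℤ) * hB

theorem S1_pow (n : ℕ) (hn : 0 < n) :
    (PowerSeries.mk fun N => if N = 0 then 0 else - (if n ∣ N then (n : ℤ) else 0) :
      PowerSeries ℤ) * ((X ^ n - 1 : ℤ[X]) : PowerSeries ℤ) =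
      PowerSeries.X * ((derivative (X ^ n - 1) : ℤ[X]) : PowerSeries ℤ) := by
  have h1 : ((X ^ n - 1 : ℤ[X]) : PowerSeries ℤ) = PowerSeries.X ^ n - 1 := by
    rw [Polynomial.coe_sub, Polynomial.coe_pow, Polynomial.coe_X, Polynomial.coe_one]
  have h2 : PowerSeries.X * ((derivative (X ^ n - 1) : ℤ[X]) : PowerSeries ℤ) =
      PowerSeries.C (n : ℤ) * PowerSeries.X ^ n := by
    rw [derivative_sub, derivative_one, sub_zero, derivative_X_pow, Polynomial.coe_mul,
      Polynomial.coe_pow, Polynomial.coe_X, Polynomial.coe_C]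
    obtain ⟨m, rfl⟩ : ∃ m, n = m + 1 := ⟨n - 1, by omega⟩
    rw [Nat.add_sub_cancel, pow_succ]
    ring
  rw [h1, h2, mul_sub, mul_one]
  ext m
  rw [map_sub, PowerSeries.coeff_mul_X_pow', PowerSeries.coeff_C_mul, PowerSeries.coeff_X_pow,
    PowerSeries.coeff_mk]
  rcases Nat.lt_trichotomy m n with hlt | heq | hgt
  · rw [if_neg (by omega : ¬ n ≤ m), if_neg (by omega : ¬ m = n)]
    by_cases hm : m = 0
    · simp [hm]
    · have : ¬ n ∣ m := fun h => by
        have := Nat.le_of_dvd (by omega) h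
        omega
      simp [hm, this]
  · subst heq
    simp [PowerSeries.coeff_mk, hn.ne']
  · rw [if_pos hgt.le, PowerSeries.coeff_mk, if_neg (by omega : ¬ m - n = 0),
      if_neg (by omega : ¬ m = 0), if_neg (by omega : ¬ m = n)]
    have : n ∣ m - n ↔ n ∣ m := by
      constructor
      · intro h
        have := Nat.dvd_add h (dvd_refl n)
        rwa [Nat.sub_add_cancel hgt.le] at this
      · intro h
        exact Nat.dvd_sub h (dvd_refl n)
    simp [this]

theorem S1_prod (s : Finset ℕ)
    (h : ∀ k ∈ s, S1_B k * ((cyclotomic k ℤ : ℤ[X]) : PowerSeries ℤ) =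
      PowerSeries.X * ((derivative (cyclotomic k ℤ) : ℤ[X]) : PowerSeries ℤ)) :
    (∑ k ∈ s, S1_B k) * ((∏ k ∈ s, cyclotomic k ℤ : ℤ[X]) : PowerSeries ℤ) =
      PowerSeries.X * ((derivative (∏ k ∈ s, cyclotomic k ℤ) : ℤ[X]) : PowerSeries ℤ) := by
  classical
  induction s using Finset.induction_on with
  | empty => simp
  | insert a s ha ih =>
    rw [Finset.sum_insert ha, Finset.prod_insert ha]
    exact S1_mul (h a (Finset.mem_insert_self a s))
      (ih fun k hk => h k (Finset.mem_insert_of_mem hk))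

theorem S1_main (n : ℕ) : S1_B n * ((cyclotomic n ℤ : ℤ[X]) : PowerSeries ℤ) =
    PowerSeries.X * ((derivative (cyclotomic n ℤ) : ℤ[X]) : PowerSeries ℤ) := by
  induction n using Nat.strong_induction_on with
  | _ n ih =>
    rcases Nat.eq_zero_or_pos n with rfl | hn
    · have : S1_B 0 = 0 := by
        ext N
        simp [S1_B, ram]
      rw [this]
      simp
    · have hprod := S1_prod n.properDivisors fun k hk =>
        ih k (Nat.mem_properDivisors.1 hk).2
      have hdiv : (∏ k ∈ n.properDivisors, cyclotomic k ℤ) * cyclotomic n ℤ = X ^ n - 1 := by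
        rw [← prod_cyclotomic_eq_X_pow_sub_one hn ℤ, ← Nat.cons_self_properDivisors hn.ne',
          Finset.prod_cons, mul_comm]
      have hsum : (∑ k ∈ n.properDivisors, S1_B k) + S1_B n =
          PowerSeries.mk fun N => if N = 0 then 0 else - (if n ∣ N then (n : ℤ) else 0) := by
        have h0 : (∑ k ∈ n.properDivisors, S1_B k) + S1_B n = ∑ k ∈ n.divisors, S1_B k := by
          rw [← Nat.cons_self_properDivisors hn.ne', Finset.sum_cons, add_comm]
        rw [h0]
        ext N
        rw [map_sum, PowerSeries.coeff_mk]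
        by_cases hN : N = 0
        · simp [S1_B, hN]
        · rw [if_neg hN, ← sum_ram n N hn (Nat.pos_of_ne_zero hN), ← Finset.sum_neg_distrib]
          refine Finset.sum_congr rfl fun k _ => ?_
          rw [S1_B, PowerSeries.coeff_mk, if_neg hN]
      refine S1_cancel (F := ∏ k ∈ n.properDivisors, cyclotomic k ℤ)
        (B := ∑ k ∈ n.properDivisors, S1_B k) ?_ hprod ?_
      · exact Finset.prod_ne_zero_iff.2 fun k _ => cyclotomic_ne_zero k ℤ
      · rw [hdiv, hsum]
        exact S1_pow n hn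

theorem log_deriv_cyclotomic (n : ℕ) :
    (PowerSeries.mk fun N => if N = 0 then 0 else - ram n N : PowerSeries ℤ) *
      ((cyclotomic n ℤ : ℤ[X]) : PowerSeries ℤ)
      = PowerSeries.X * ((derivative (cyclotomic n ℤ) : ℤ[X]) : PowerSeries ℤ) :=
  S1_main n

theorem log_deriv_prod (m : Multiset ℕ) :
    (PowerSeries.mk fun N => if N = 0 then 0 else - (m.map (fun n => ram n N)).sum : PowerSeries ℤ) *
      (((m.map (fun k => cyclotomic k ℤ)).prod : ℤ[X]) : PowerSeries ℤ)
      = PowerSeries.X *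
        ((derivative ((m.map (fun k => cyclotomic k ℤ)).prod) : ℤ[X]) : PowerSeries ℤ) := by
  induction m using Multiset.induction_on with
  | empty =>
    have : (PowerSeries.mk fun N => if N = 0 then 0 else
        - ((0 : Multiset ℕ).map (fun n => ram n N)).sum : PowerSeries ℤ) = 0 := by
      ext N
      simp
    rw [this]
    simp
  | cons a s ih =>
    have : (PowerSeries.mk fun N => if N = 0 then 0 else
        - ((a ::ₘ s).map (fun n => ram n N)).sum : PowerSeries ℤ) =
        (PowerSeries.mk fun N => if N = 0 then 0 else - ram a N : PowerSeries ℤ) +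
        (PowerSeries.mk fun N => if N = 0 then 0 else
          - (s.map (fun n => ram n N)).sum : PowerSeries ℤ) := by
      ext N
      rw [map_add, PowerSeries.coeff_mk, PowerSeries.coeff_mk, PowerSeries.coeff_mk]
      split_ifs
      · simp
      · rw [Multiset.map_cons, Multiset.sum_cons]
        ring
    rw [this, Multiset.map_cons, Multiset.prod_cons]
    exact S1_mul (log_deriv_cyclotomic a) ih

end Pool.Agent.LibTP76
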