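import Pool.Agent.LibTP76.S1

/-!
ROW S2: power sums outside the semigroup.

`HH_mul` : `(1 - X) * HH S = PP S` (see `HS_mul` in `Pool/Agent/CycE4/Hilb.lean`, outputs/live).
`power_sum`: put `A = ∑_{N ≥ 1} (1 - ∑_{n ∈ m} ram n N) X ^ N`. From `HH * (1 - X) = P`,
`X HH' (1 - X) - X HH = X P' = B P = B HH (1 - X)` with `B` from `log_deriv_prod`, and
`X = (1 - X) * ∑_{N ≥ 1} X ^ N`, cancel `1 - X` : `A * HH = X * HH'`.
Then `A_N = 0` for `N ∉ S` by strong induction: the coefficient of `X ^ N` in `X HH'` is
`N * [N ∈ S] = 0` and in `A * HH` it is `A_N + ∑_{i < N, N - i ∈ S} A_i` with `i ∉ S` (otherwise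
`N ∈ S`), `A_0 = 0`.
-/

set_option autoImplicit false

namespace Pool.Agent.LibTP76

open Polynomial

theorem S2_coeff_HH (S : AddSubmonoid ℕ) [DecidablePred (· ∈ S)] (n : ℕ) :
    PowerSeries.coeff n (HH S) = if n ∈ S then 1 else 0 := by
  unfold HH
  rw [PowerSeries.coeff_mk]
  congr

theorem HH_mul (S : AddSubmonoid ℕ) (hS : ((S : Set ℕ)ᶜ).Finite) :
    (1 - PowerSeries.X) * HH S = ((PP S hS : ℤ[X]) : PowerSeries ℤ) := by
  classical
  have h1 : HH S + ((∑ n ∈ hS.toFinset, (X : ℤ[X]) ^ n : ℤ[X]) : PowerSeries ℤ)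
      = PowerSeries.mk 1 := by
    ext n
    rw [map_add, S2_coeff_HH, PowerSeries.coeff_mk, Polynomial.coeff_coe, finsetSum_coeff]
    simp only [coeff_X_pow]
    rw [Finset.sum_ite_eq]
    by_cases hn : n ∈ S <;> simp [hn]
  have h2 := PowerSeries.mk_one_mul_one_sub_eq_one ℤ
  rw [← h1] at h2
  unfold PP
  push_cast
  linear_combination h2

theorem power_sum (S : AddSubmonoid ℕ) (hS : ((S : Set ℕ)ᶜ).Finite) (m : Multiset ℕ)
    (hm : PP S hS = (m.map (fun k => cyclotomic k ℤ)).prod) (N : ℕ) (hN : N ∉ S) :
    (m.map (fun n => ram n N)).sum = 1 := by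
  classical
  set B : PowerSeries ℤ :=
    PowerSeries.mk fun N => if N = 0 then 0 else - (m.map (fun n => ram n N)).sum with hBdef
  have hB : B * (((m.map (fun k => cyclotomic k ℤ)).prod : ℤ[X]) : PowerSeries ℤ)
      = PowerSeries.X *
        ((derivative ((m.map (fun k => cyclotomic k ℤ)).prod) : ℤ[X]) : PowerSeries ℤ) :=
    log_deriv_prod m
  rw [← hm, ← PowerSeries.derivative_coe, ← HH_mul S hS] at hB
  have hder : PowerSeries.derivative ℤ ((1 - PowerSeries.X) * HH S)
      = (1 - PowerSeries.X) * PowerSeries.derivative ℤ (HH S) - HH S := by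
    rw [Derivation.leibniz]
    simp only [smul_eq_mul, map_sub, PowerSeries.derivative_X, Derivation.map_one_eq_zero]
    ring
  rw [hder] at hB
  set G : PowerSeries ℤ := PowerSeries.mk fun N => if N = 0 then 0 else 1 with hGdef
  have hG : (1 - PowerSeries.X) * G = PowerSeries.X := by
    ext n
    rw [sub_mul, one_mul, map_sub]
    rcases n with _ | n
    · simp [hGdef]
    · rw [PowerSeries.coeff_succ_X_mul]
      rw [hGdef, PowerSeries.coeff_mk, PowerSeries.coeff_mk, PowerSeries.coeff_X]
      rcases n with _ | n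
      · simp
      · simp
  have hne : (1 - PowerSeries.X : PowerSeries ℤ) ≠ 0 := by
    intro h
    have := congrArg (PowerSeries.coeff 0) h
    simp at this
  have hkey : (B + G) * HH S = PowerSeries.X * PowerSeries.derivative ℤ (HH S) := by
    apply mul_left_cancel₀ hne
    linear_combination hB + hG * HH S
  have hcoef : ∀ n : ℕ, 0 < n → ∑ p ∈ Finset.HasAntidiagonal.antidiagonal n,
      PowerSeries.coeff p.1 (B + G) * PowerSeries.coeff p.2 (HH S)
        = PowerSeries.coeff n (HH S) * n := by
    intro n hn
    have h := congrArg (PowerSeries.coeff n) hkey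
    rw [PowerSeries.coeff_mul] at h
    rw [h]
    obtain ⟨k, rfl⟩ : ∃ k, n = k + 1 := ⟨n - 1, by omega⟩
    rw [PowerSeries.coeff_succ_X_mul, PowerSeries.coeff_derivative]
    push_cast
    ring
  have hA : ∀ n : ℕ, n ∉ S → PowerSeries.coeff n (B + G) = 0 := by
    intro n
    induction n using Nat.strong_induction_on with
    | _ n ih =>
      intro hn
      have hn0 : 0 < n := by
        rcases Nat.eq_zero_or_pos n with h | h
        · subst h; exact absurd S.zero_mem hn
        · exact h
      have h := hcoef n hn0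
      rw [S2_coeff_HH S n, if_neg hn, zero_mul] at h
      rw [Finset.sum_eq_single (n, 0)] at h
      · simpa [S2_coeff_HH] using h
      · rintro ⟨i, j⟩ hij hne'
        rw [Finset.HasAntidiagonal.mem_antidiagonal] at hij
        simp only at hij
        by_cases hj : j ∈ S
        · have hi : i ∉ S := fun hi => hn (hij ▸ S.add_mem hi hj)
          have hlt : i < n := by
            rcases Nat.lt_or_ge i n with h | h
            · exact h
            · exfalso
              apply hne'
              have : i = n := by omega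
              have : j = 0 := by omega
              simp [*]
          simp only
          rw [ih i hlt hi, zero_mul]
        · simp only
          rw [S2_coeff_HH, if_neg hj, mul_zero]
      · intro h'
        exfalso
        apply h'
        simp
  have hN0 : N ≠ 0 := by
    rintro rfl
    exact hN S.zero_mem
  have := hA N hN
  rw [map_add, hBdef, hGdef, PowerSeries.coeff_mk, PowerSeries.coeff_mk, if_neg hN0, if_neg hN0]
    at this
  omega

end Pool.Agent.LibTP76
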