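import Pool.Agent.LibTP76.S2

/-!
ROW S3: the identity `∑_{n ∈ m} ee S n = 1` if `1 ∉ S`.

Put `c j = (if j = 1 then 1 else 0) - ∑_{n ∈ m, j ∈ n.divisors} μ (n / j)` (an integer; sum over the
multiset `m.map`). For `N ≥ 1`: `∑_{j ∈ N.divisors} j * c j = 1 - ∑_{n ∈ m} ram n N`, which is `0` for
`N ∉ S` by `power_sum`. All divisors of `N ∉ S` are outside `S`, so strong induction gives `c N = 0`
for all `N ∉ S`. Sum over the gaps `j ∈ hS.toFinset` (none is `0`, and `1` is one of them):
`0 = ∑ c j = 1 - ∑_{n ∈ m} ee S n`.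
-/

set_option autoImplicit false

namespace Pool.Agent.LibTP76

open Polynomial

theorem S3_swap (T : Finset ℕ) (f : ℕ → ℕ → ℤ) (m : Multiset ℕ) :
    ∑ j ∈ T, (m.map (fun n => f j n)).sum = (m.map (fun n => ∑ j ∈ T, f j n)).sum := by
  induction m using Multiset.induction_on with
  | empty => simp
  | cons a m ih => simp [Finset.sum_add_distrib, ih]

/-- the correction term -/
noncomputable def S3_c (m : Multiset ℕ) (j : ℕ) : ℤ :=
  (if j = 1 then 1 else 0) - (m.map (fun n => if j ∈ n.divisors then ArithmeticFunction.moebius (n / j) else 0)).sum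

theorem S3_sum (m : Multiset ℕ) (N : ℕ) (hN : N ≠ 0) :
    ∑ j ∈ N.divisors, (j : ℤ) * S3_c m j = 1 - (m.map (fun n => ram n N)).sum := by
  unfold S3_c
  simp_rw [mul_sub]
  rw [Finset.sum_sub_distrib]
  congr 1
  · rw [Finset.sum_eq_single 1]
    · simp
    · intro b _ hb
      simp [hb]
    · intro h
      exact absurd (Nat.one_mem_divisors.mpr hN) h
  · simp_rw [← Multiset.sum_map_mul_left]
    rw [S3_swap]
    congr 1
    refine Multiset.map_congr rfl fun n _ => ?_
    unfold ram
    have h1 : ∑ j ∈ N.divisors, (j : ℤ) * (if j ∈ n.divisors then (ArithmeticFunction.moebius (n / j) : ℤ) else 0) =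
        ∑ j ∈ N.divisors with j ∈ n.divisors, (j : ℤ) * ArithmeticFunction.moebius (n / j) := by
      rw [Finset.sum_filter]
      refine Finset.sum_congr rfl fun j _ => ?_
      split_ifs <;> simp
    have h2 : ∑ k ∈ n.divisors, (if k ∣ N then (k : ℤ) * ArithmeticFunction.moebius (n / k) else 0) =
        ∑ k ∈ n.divisors with k ∣ N, (k : ℤ) * ArithmeticFunction.moebius (n / k) := by
      rw [Finset.sum_filter]
    rw [h1, h2]
    refine Finset.sum_congr ?_ fun _ _ => rfl
    ext j
    simp only [Finset.mem_filter, Nat.mem_divisors]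
    constructor
    · rintro ⟨⟨a, _⟩, b⟩
      exact ⟨b, a⟩
    · rintro ⟨b, a⟩
      exact ⟨⟨a, hN⟩, b⟩

theorem S3_zero (S : AddSubmonoid ℕ) (hS : ((S : Set ℕ)ᶜ).Finite) (m : Multiset ℕ)
    (hm : PP S hS = (m.map (fun k => cyclotomic k ℤ)).prod) : ∀ N : ℕ, N ∉ S → S3_c m N = 0 := by
  intro N
  induction N using Nat.strong_induction_on with
  | _ N ih =>
    intro hN
    have hN0 : N ≠ 0 := fun h => hN (h ▸ S.zero_mem)
    have h := S3_sum m N hN0
    rw [power_sum S hS m hm N hN, sub_self] at h
    rw [Finset.sum_eq_single N] at h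
    · rcases mul_eq_zero.mp h with h0 | h0
      · exact absurd (by exact_mod_cast h0) hN0
      · exact h0
    · intro j hj hne
      have hjN : j ∣ N := (Nat.mem_divisors.mp hj).1
      have hlt : j < N := lt_of_le_of_ne (Nat.le_of_dvd (Nat.pos_of_ne_zero hN0) hjN) hne
      have hjS : j ∉ S := by
        intro hjS
        obtain ⟨k, hk⟩ := hjN
        apply hN
        rw [hk, mul_comm, ← smul_eq_mul]
        exact S.nsmul_mem hjS k
      rw [ih j hlt hjS, mul_zero]
    · intro h0
      exact absurd (Nat.mem_divisors_self N hN0) h0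

theorem sum_ee (S : AddSubmonoid ℕ) (hS : ((S : Set ℕ)ᶜ).Finite) (m : Multiset ℕ)
    (hm : PP S hS = (m.map (fun k => cyclotomic k ℤ)).prod) (h1 : 1 ∉ S) :
    (m.map (fun n => ee S n)).sum = 1 := by
  have hmem : ∀ j, j ∈ hS.toFinset ↔ j ∉ S := by
    intro j
    simp [Set.Finite.mem_toFinset]
  have h0 : ∑ j ∈ hS.toFinset, S3_c m j = 0 :=
    Finset.sum_eq_zero fun j hj => S3_zero S hS m hm j ((hmem j).mp hj)
  unfold S3_c at h0
  rw [Finset.sum_sub_distrib, S3_swap] at h0
  have h2 : ∑ j ∈ hS.toFinset, (if j = 1 then (1 : ℤ) else 0) = 1 := by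
    rw [Finset.sum_eq_single 1]
    · simp
    · intro b _ hb
      simp [hb]
    · intro h
      exact absurd ((hmem 1).mpr h1) h
  have h3 : (m.map (fun n => ∑ j ∈ hS.toFinset, if j ∈ n.divisors then (ArithmeticFunction.moebius (n / j) : ℤ) else 0)) =
      m.map (fun n => ee S n) := by
    refine Multiset.map_congr rfl fun n _ => ?_
    unfold ee
    rw [← Finset.sum_filter]
    classical
    calc ∑ j ∈ hS.toFinset with j ∈ n.divisors, (ArithmeticFunction.moebius (n / j) : ℤ)
        = ∑ j ∈ n.divisors with j ∉ S, ArithmeticFunction.moebius (n / j) := by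
          refine Finset.sum_congr ?_ fun _ _ => rfl
          ext j
          simp only [Finset.mem_filter, hmem j]
          exact and_comm
      _ = ∑ j ∈ n.divisors, (if j ∈ S then (0 : ℤ) else ArithmeticFunction.moebius (n / j)) := by
          rw [Finset.sum_filter]
          refine Finset.sum_congr rfl fun j _ => ?_
          by_cases hj : j ∈ S
          · rw [if_pos hj, if_neg (fun h => h hj)]
          · rw [if_neg hj, if_pos hj]
      _ = _ := by
          refine Finset.sum_congr rfl fun j _ => ?_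
          by_cases hj : j ∈ S <;> simp [hj]
  rw [h2, h3] at h0
  linarith

end Pool.Agent.LibTP76
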