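import Pool.Agent.LibTP76.B2
import Pool.Agent.LibTP76.B3
import Pool.Agent.LibTP76.P3
import Pool.Agent.LibTP76.S4
import Pool.Agent.LibTP76.D4
import Pool.Agent.LibTP76.D5

/-!
Assembly (helper76).
-/

set_option autoImplicit false

namespace Pool.Agent.LibTP76

open Polynomial

theorem ci_of_plus {S : AddSubmonoid ℕ} {d p q : ℕ} (hG : Glu S d p q) (h : CI (plus S d)) :
    CI S := by
  obtain ⟨G, R, hat, hpos, hcl, hP, hc⟩ := ci_atoms _ h
  obtain ⟨R', hP', hc', hform⟩ := exchange hG G R hat hpos hcl hP
  exact lift_ci hG G R' hat hpos hcl hP' (by omega) hform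

theorem ci_top (S : AddSubmonoid ℕ) (h1 : 1 ∈ S) : CI S := by
  refine ⟨{1}, ∅, by simp, ?_, ⟨by simp, by simp, ?_⟩, by simp⟩
  · have : S = ⊤ := by
      rw [eq_top_iff]
      intro n _
      have := S.nsmul_mem h1 n
      simpa using this
    rw [this, eq_top_iff]
    intro n _
    have h := (AddSubmonoid.closure (({1} : Finset ℕ) : Set ℕ)).nsmul_mem
      (AddSubmonoid.subset_closure (by simp) : (1 : ℕ) ∈ _) n
    simpa using h
  · intro A B hA hB hs
    have key : ∀ M : Multiset ℕ, Over {1} M → M = Multiset.replicate M.sum 1 := by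
      intro M hM
      have h2 : M = Multiset.replicate (Multiset.card M) 1 :=
        Multiset.eq_replicate_card.mpr (fun b hb => by simpa using hM b hb)
      have h3 : M.sum = Multiset.card M := by
        conv_lhs => rw [h2]
        simp
      rw [h3]; exact h2
    rw [key A hA, key B hB, hs]
    exact Relation.ReflTransGen.refl
theorem main_ci (c : ℕ) : ∀ (S : AddSubmonoid ℕ) (hS : ((S : Set ℕ)ᶜ).Finite) (m : Multiset ℕ),
    m.card = c → PP S hS = (m.map (fun k => cyclotomic k ℤ)).prod →
    (∀ k ∈ m, k.primeFactors.card ≤ 2) → CI S := by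
  induction c with
  | zero =>
    intro S hS m hc hm h2
    by_cases h1 : 1 ∈ S
    · exact ci_top S h1
    · obtain ⟨n, hn, _⟩ := good_pair S hS m hm h1 h2
      rw [Multiset.card_eq_zero] at hc
      simp [hc] at hn
  | succ c ih =>
    intro S hS m hc hm h2
    by_cases h1 : 1 ∈ S
    · exact ci_top S h1
    · obtain ⟨n, hn, d, p, q, hd, hp, hq, hpq, rfl, hr, hdS, hx, hy⟩ := good_pair S hS m hm h1 h2
      have hdvd : cyclotomic (d * p * q) ℤ ∣ PP S hS := by
        rw [hm]
        exact Multiset.dvd_prod (Multiset.mem_map_of_mem _ hn)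
      have hG : Glu S d p q := glu_of S hS d p q hd hp hq hpq hdS hx hy
        (fun w w' => ap_congr S hS d p q hd hp hq hpq hy
          (WW_dvd S hS d p q hd hp hq hpq hr hx hy hdvd) w w')
      have hPP := PP_plus hS hG hp hq hr
      have hm' : PP (plus S d) (plus_finite S hS d)
          = ((m.erase (d * p * q)).map (fun k => cyclotomic k ℤ)).prod := by
        have h3 : (m.map (fun k => cyclotomic k ℤ)).prod = cyclotomic (d * p * q) ℤ *
            ((m.erase (d * p * q)).map (fun k => cyclotomic k ℤ)).prod := by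
          conv_lhs => rw [← Multiset.cons_erase hn]
          rw [Multiset.map_cons, Multiset.prod_cons]
        have h4 := hm.symm.trans hPP
        rw [h3] at h4
        exact (mul_left_cancel₀ (cyclotomic_ne_zero _ _) h4).symm
      have hci := ih (plus S d) (plus_finite S hS d) (m.erase (d * p * q))
        (by rw [Multiset.card_erase_of_mem hn, hc]; rfl) hm'
        (fun k hk => h2 k (Multiset.mem_of_mem_erase hk))
      exact ci_of_plus hG hci

end Pool.Agent.LibTP76
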